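import Pool.Agent.BEI.Lifts

/-!
# Multidegrees of Koszul chains; cycles modulo an edge ideal
-/

namespace Pool.Agent.BEI

open MvPolynomial Finset

set_option linter.unusedSectionVars false

variable {K : Type*} [Field K] {V : Type*} [Fintype V] [LinearOrder V]

theorem coeff_zsmul_ne_zero {k : ℤ} {p : MvPolynomial V K} {m : V →₀ ℕ}
    (h : coeff m (k • p) ≠ 0) : coeff m p ≠ 0 := by
  intro h0
  apply h
  have := map_zsmul (coeffAddMonoidHom (R := K) (σ := V) m) k p
  simp only [coeffAddMonoidHom_apply] at this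
  rw [this, h0, smul_zero]

theorem sub_single_add {v : V} {m : V →₀ ℕ} (hv : v ∈ m.support) :
    m - Finsupp.single v 1 + Finsupp.single v 1 = m := by
  rw [tsub_add_cancel_of_le]
  rw [Finsupp.single_le_iff]
  exact Nat.one_le_iff_ne_zero.mpr (Finsupp.mem_support_iff.mp hv)

/-- the exponent vector of the squarefree monomial `∏_{v ∈ A} X_v` -/
noncomputable def ind (A : Finset V) : V →₀ ℕ := ∑ v ∈ A, Finsupp.single v 1

theorem ind_insert (v : V) (A : Finset V) (h : v ∉ A) :
    ind (insert v A) = Finsupp.single v 1 + ind A := by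
  unfold ind; rw [Finset.sum_insert h]

theorem ind_erase (v : V) (A : Finset V) (h : v ∈ A) :
    ind A = Finsupp.single v 1 + ind (A.erase v) := by
  rw [← ind_insert v _ (by simp), Finset.insert_erase h]

theorem ind_apply (A : Finset V) (v : V) : ind A v = if v ∈ A then 1 else 0 := by
  unfold ind
  rw [Finsupp.finsetSum_apply]
  simp [Finsupp.single_apply]

variable (K) in
/-- Koszul chains all of whose terms have total multidegree in `P` -/
def Sup (P : Set (V →₀ ℕ)) : Submodule K (Finset V → MvPolynomial V K) where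
  carrier := {f | ∀ A m, coeff m (f A) ≠ 0 → m + ind A ∈ P}
  add_mem' := by
    intro f g hf hg A m h
    rw [Pi.add_apply, coeff_add] at h
    by_cases h1 : coeff m (f A) = 0
    · rw [h1, zero_add] at h
      exact hg A m h
    · exact hf A m h1
  zero_mem' := by
    intro A m h
    simp at h
  smul_mem' := by
    intro c f hf A m h
    rw [Pi.smul_apply, coeff_smul] at h
    exact hf A m (fun h0 => h (by rw [h0, smul_zero]))

theorem mem_Sup {P : Set (V →₀ ℕ)} {f : Finset V → MvPolynomial V K} :
    f ∈ Sup K P ↔ ∀ A m, coeff m (f A) ≠ 0 → m + ind A ∈ P := Iff.rfl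

theorem Sup_mono {P Q : Set (V →₀ ℕ)} (h : P ⊆ Q) {f : Finset V → MvPolynomial V K}
    (hf : f ∈ Sup K P) : f ∈ Sup K Q := fun A m hm => h (hf A m hm)

theorem zsmul_mem_Sup {P : Set (V →₀ ℕ)} (k : ℤ) {f : Finset V → MvPolynomial V K}
    (hf : f ∈ Sup K P) : k • f ∈ Sup K P := zsmul_mem hf k

theorem wedge_mem_Sup {P Q : Set (V →₀ ℕ)} {v : V} (h : ∀ μ ∈ P, μ + Finsupp.single v 1 ∈ Q)
    {f : Finset V → MvPolynomial V K} (hf : f ∈ Sup K P) :
    wedge K (MvPolynomial V K) v f ∈ Sup K Q := by
  intro A m hm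
  by_cases hv : v ∈ A
  · rw [wedge_apply_mem _ v f A hv] at hm
    have hm' : coeff m (f (A.erase v)) ≠ 0 := coeff_zsmul_ne_zero hm
    have := h _ (hf _ _ hm')
    rw [ind_erase v A hv, add_comm (Finsupp.single v 1), ← add_assoc]
    exact this
  · rw [wedge_apply_notMem _ v f A hv] at hm
    simp at hm

theorem X_smul_mem_Sup {P Q : Set (V →₀ ℕ)} {v : V} (h : ∀ μ ∈ P, μ + Finsupp.single v 1 ∈ Q)
    {f : Finset V → MvPolynomial V K} (hf : f ∈ Sup K P) :
    (X v : MvPolynomial V K) • f ∈ Sup K Q := by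
  intro A m hm
  rw [Pi.smul_apply, smul_eq_mul, coeff_X_mul'] at hm
  split_ifs at hm with hv
  · have := h _ (hf _ _ hm)
    rw [add_right_comm, sub_single_add hv] at this
    exact this
  · exact absurd rfl hm

theorem koszulD_mem_Sup {P : Set (V →₀ ℕ)} {f : Finset V → MvPolynomial V K}
    (hf : f ∈ Sup K P) : koszulD K (MvPolynomial V K) f ∈ Sup K P := by
  intro B m hm
  rw [koszulD_apply, coeff_sum] at hm
  obtain ⟨a, ha, hne⟩ := Finset.exists_ne_zero_of_sum_ne_zero hm
  simp only [mem_sdiff, mem_univ, true_and] at ha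
  have hm' : coeff m ((X a : MvPolynomial V K) • f (insert a B)) ≠ 0 := coeff_zsmul_ne_zero hne
  rw [smul_eq_mul, coeff_X_mul'] at hm'
  split_ifs at hm' with hv
  · have := hf _ _ hm'
    rw [ind_insert a B ha, ← add_assoc, sub_single_add hv] at this
    exact this
  · exact absurd rfl hm'

theorem koszulD_eq_zero_of_Sup_zero {z : Finset V → MvPolynomial V K} (hz : z ∈ Sup K {0}) :
    koszulD K (MvPolynomial V K) z = 0 := by
  funext B
  rw [koszulD_apply]
  apply Finset.sum_eq_zero
  intro a ha
  have : z (insert a B) = 0 := by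
    ext m
    by_contra hne
    have := hz _ _ hne
    rw [Set.mem_singleton_iff] at this
    have h2 := DFunLike.congr_fun this a
    rw [Finsupp.add_apply, ind_apply, if_pos (mem_insert_self _ _)] at h2
    simp at h2
  rw [this]
  simp

/-- the exponent vector of the product of the variables in a list -/
noncomputable def ls (l : List V) : V →₀ ℕ := (l.map fun v => Finsupp.single v 1).sum

@[simp] theorem ls_nil : ls ([] : List V) = 0 := rfl
@[simp] theorem ls_cons (v : V) (l : List V) : ls (v :: l) = Finsupp.single v 1 + ls l := rfl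

theorem ls_apply_ne_zero (l : List V) (v : V) : ls l v ≠ 0 ↔ v ∈ l := by
  induction l with
  | nil => simp
  | cons w l ih =>
    rw [ls_cons, Finsupp.add_apply, List.mem_cons]
    by_cases h : w = v
    · subst h; simp
    · rw [Finsupp.single_eq_of_ne (Ne.symm h), zero_add, ih]
      simp [Ne.symm h]

theorem wl_mem_Sup (l : List V) {ν : V →₀ ℕ} {f : Finset V → MvPolynomial V K}
    (hf : f ∈ Sup K {ν}) : wl K (MvPolynomial V K) l f ∈ Sup K {ls l + ν} := by
  induction l with
  | nil => simpa using hf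
  | cons x l ih =>
    rw [wl_cons, ls_cons, add_assoc]
    refine wedge_mem_Sup ?_ ih
    intro κ hκ
    rw [Set.mem_singleton_iff] at hκ ⊢
    rw [hκ, add_comm]

theorem dl_mem_Sup (l : List V) {ν : V →₀ ℕ} {f : Finset V → MvPolynomial V K}
    (hf : f ∈ Sup K {ν}) : dl K (MvPolynomial V K) l f ∈ Sup K {ls l + ν} := by
  induction l with
  | nil => simp
  | cons x l ih =>
    rw [dl_cons, ls_cons, add_assoc]
    have hstep : ∀ κ ∈ ({ls l + ν} : Set (V →₀ ℕ)), κ + Finsupp.single x 1 ∈
        ({Finsupp.single x 1 + (ls l + ν)} : Set (V →₀ ℕ)) := by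
      intro κ hκ
      rw [Set.mem_singleton_iff] at hκ ⊢
      rw [hκ, add_comm]
    exact Submodule.sub_mem _ (X_smul_mem_Sup hstep (wl_mem_Sup l hf)) (wedge_mem_Sup hstep ih)

/-- no term of `f` involves `e_v` -/
def NoE (v : V) (f : Finset V → MvPolynomial V K) : Prop := ∀ A, v ∈ A → f A = 0

theorem NoE.smul {v : V} {f : Finset V → MvPolynomial V K} (h : NoE v f) (p : MvPolynomial V K) :
    NoE v (p • f) := fun A hA => by rw [Pi.smul_apply, h A hA, smul_zero]

theorem NoE.add {v : V} {f g : Finset V → MvPolynomial V K} (h : NoE v f) (h' : NoE v g) :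
    NoE v (f + g) := fun A hA => by rw [Pi.add_apply, h A hA, h' A hA, add_zero]

theorem NoE.neg {v : V} {f : Finset V → MvPolynomial V K} (h : NoE v f) :
    NoE v (-f) := fun A hA => by rw [Pi.neg_apply, h A hA, neg_zero]

theorem NoE.koszulD {v : V} {f : Finset V → MvPolynomial V K} (h : NoE v f) :
    NoE v (koszulD K (MvPolynomial V K) f) := fun A hA => by
  rw [koszulD_apply]
  apply Finset.sum_eq_zero
  intro a _
  rw [h _ (Finset.mem_insert_of_mem hA), smul_zero, smul_zero]

/-- every chain whose terms involve `v` can be written as `X_v a + e_v ∧ b` -/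
theorem exists_dec (μ : V →₀ ℕ) (v : V) (z : Finset V → MvPolynomial V K)
    (hz : z ∈ Sup K {Finsupp.single v 1 + μ}) :
    ∃ a b, a ∈ Sup K {μ} ∧ b ∈ Sup K {μ} ∧ NoE v a ∧ NoE v b ∧
      z = (X v : MvPolynomial V K) • a + wedge K (MvPolynomial V K) v b := by
  classical
  refine ⟨fun A => if v ∈ A then 0 else (z A).divMonomial (Finsupp.single v 1),
    fun A => if v ∈ A then 0 else ksign v A • z (insert v A), ?_, ?_, ?_, ?_, ?_⟩
  · intro A m hm
    by_cases hv : v ∈ A
    · simp [hv] at hm
    · simp only [hv, if_false, coeff_divMonomial] at hm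
      have := hz _ _ hm
      rw [Set.mem_singleton_iff] at this ⊢
      rw [add_assoc] at this
      exact add_left_cancel this
  · intro A m hm
    by_cases hv : v ∈ A
    · simp [hv] at hm
    · simp only [hv, if_false] at hm
      have hm' : coeff m (z (insert v A)) ≠ 0 := coeff_zsmul_ne_zero hm
      have := hz _ _ hm'
      rw [Set.mem_singleton_iff] at this ⊢
      rw [ind_insert v A hv] at this
      apply add_left_cancel (a := Finsupp.single v 1)
      rw [← this, add_left_comm]
  · intro A hA; simp [hA]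
  · intro A hA; simp [hA]
  · funext A
    rw [Pi.add_apply, Pi.smul_apply]
    by_cases hv : v ∈ A
    · rw [wedge_apply_mem _ v _ A hv]
      simp only [hv, if_true, smul_zero, zero_add, Finset.notMem_erase, if_false,
        Finset.insert_erase hv]
      rw [smul_smul, ksign_mul_self, one_smul]
    · rw [wedge_apply_notMem _ v _ A hv, add_zero, smul_eq_mul]
      simp only [hv, if_false]
      ext m
      rw [coeff_X_mul']
      split_ifs with h
      · rw [coeff_divMonomial]
        congr 1
        rw [add_comm, tsub_add_cancel_of_le]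
        rw [Finsupp.single_le_iff]
        exact Nat.one_le_iff_ne_zero.mpr (Finsupp.mem_support_iff.mp h)
      · by_contra hne
        have := hz _ _ hne
        rw [Set.mem_singleton_iff] at this
        apply h
        rw [Finsupp.mem_support_iff]
        have h2 := DFunLike.congr_fun this v
        rw [Finsupp.add_apply, Finsupp.add_apply, ind_apply, if_neg hv, Finsupp.single_eq_same]
          at h2
        omega

section InI

variable (I : Ideal (MvPolynomial V K))

/-- chains with all coefficients in `I` -/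
def InI : Submodule (MvPolynomial V K) (Finset V → MvPolynomial V K) where
  carrier := {f | ∀ A, f A ∈ I}
  add_mem' := fun hf hg A => I.add_mem (hf A) (hg A)
  zero_mem' := fun _ => I.zero_mem
  smul_mem' := fun c _ hf A => I.mul_mem_left c (hf A)

theorem mem_InI {f : Finset V → MvPolynomial V K} : f ∈ InI I ↔ ∀ A, f A ∈ I := Iff.rfl

theorem mem_InI_iff_kmap {f : Finset V → MvPolynomial V K} :
    f ∈ InI I ↔ kmap (Submodule.mkQ I) f = 0 := by
  rw [mem_InI, funext_iff]
  simp only [kmap_apply, Pi.zero_apply, Submodule.mkQ_apply, Submodule.Quotient.mk_eq_zero]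

variable {I}

theorem InI.wedge {f : Finset V → MvPolynomial V K} (h : f ∈ InI I) (v : V) :
    wedge K (MvPolynomial V K) v f ∈ InI I := by
  rw [mem_InI_iff_kmap] at h ⊢
  rw [kmap_wedge, h, map_zero]

theorem InI.koszulD {f : Finset V → MvPolynomial V K} (h : f ∈ InI I) :
    koszulD K (MvPolynomial V K) f ∈ InI I := by
  rw [mem_InI_iff_kmap] at h ⊢
  rw [kmap_koszulD, h, map_zero]

theorem InI.wl {f : Finset V → MvPolynomial V K} (h : f ∈ InI I) (l : List V) :
    wl K (MvPolynomial V K) l f ∈ InI I := by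
  induction l with
  | nil => exact h
  | cons v l ih => exact InI.wedge ih v

theorem InI.indep {v : V} {a b : Finset V → MvPolynomial V K} (ha : NoE v a) (hb : NoE v b)
    (h : (X v : MvPolynomial V K) • a + BEI.wedge K (MvPolynomial V K) v b ∈ InI I) :
    (X v : MvPolynomial V K) • a ∈ InI I ∧ b ∈ InI I := by
  constructor
  · intro A
    by_cases hv : v ∈ A
    · rw [Pi.smul_apply, ha A hv, smul_zero]; exact I.zero_mem
    · have := h A
      rw [Pi.add_apply, wedge_apply_notMem _ v _ A hv, add_zero] at this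
      exact this
  · intro A
    by_cases hv : v ∈ A
    · rw [hb A hv]; exact I.zero_mem
    · have := h (insert v A)
      rw [Pi.add_apply, Pi.smul_apply, ha _ (Finset.mem_insert_self v A), smul_zero, zero_add,
        wedge_apply_mem _ v _ _ (Finset.mem_insert_self v A), Finset.erase_insert hv] at this
      have h2 := zsmul_mem this (ksign v A)
      rwa [smul_smul, ksign_mul_self, one_smul] at h2

end InI

/-- The step: a chain involving `v` is a boundary plus `e_v ∧ c`. -/
theorem exists_step (I : Ideal (MvPolynomial V K)) (μ : V →₀ ℕ) (v : V)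
    (z : Finset V → MvPolynomial V K) (hz : z ∈ Sup K {Finsupp.single v 1 + μ})
    (hd : koszulD K (MvPolynomial V K) z ∈ InI I) :
    ∃ a b c, a ∈ Sup K {μ} ∧ b ∈ Sup K {μ} ∧ c ∈ Sup K {μ} ∧ NoE v a ∧ NoE v b ∧ NoE v c ∧
      z = (X v : MvPolynomial V K) • a + wedge K (MvPolynomial V K) v b ∧
      c = b + koszulD K (MvPolynomial V K) a ∧
      z = koszulD K (MvPolynomial V K) (wedge K (MvPolynomial V K) v a) +
        wedge K (MvPolynomial V K) v c ∧
      (X v : MvPolynomial V K) • c ∈ InI I ∧ koszulD K (MvPolynomial V K) c ∈ InI I := by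
  obtain ⟨a, b, ha, hb, hna, hnb, hzab⟩ := exists_dec μ v z hz
  have hz2 : z = koszulD K (MvPolynomial V K) (wedge K (MvPolynomial V K) v a) +
        wedge K (MvPolynomial V K) v (b + koszulD K (MvPolynomial V K) a) := by
    rw [koszulD_wedge, map_add, hzab]; abel
  have hnc : NoE v (b + koszulD K (MvPolynomial V K) a) := hnb.add hna.koszulD
  refine ⟨a, b, b + koszulD K (MvPolynomial V K) a, ha, hb,
    Submodule.add_mem _ hb (koszulD_mem_Sup ha), hna, hnb, hnc, hzab, rfl, hz2, ?_⟩
  have h1 : (X v : MvPolynomial V K) • (b + koszulD K (MvPolynomial V K) a) +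
      wedge K (MvPolynomial V K) v
        (-(koszulD K (MvPolynomial V K) (b + koszulD K (MvPolynomial V K) a))) ∈ InI I := by
    have := hd
    rw [hz2, map_add, koszulD_koszulD, zero_add, koszulD_wedge] at this
    rw [map_neg, ← sub_eq_add_neg]
    exact this
  obtain ⟨h2, h3⟩ := InI.indep hnc hnc.koszulD.neg h1
  refine ⟨h2, ?_⟩
  have := neg_mem h3
  rwa [neg_neg] at this

section edge

/-- a monomial is bad when it is divisible by one of the edges -/
def Bad (nb : V → V → Prop) (m : V →₀ ℕ) : Prop := ∃ a b, nb a b ∧ m a ≠ 0 ∧ m b ≠ 0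

variable (K) in
/-- the edge ideal -/
noncomputable def edgeI (nb : V → V → Prop) : Ideal (MvPolynomial V K) :=
  Ideal.span {p | ∃ a b, nb a b ∧ p = X a * X b}

theorem mem_edgeI (nb : V → V → Prop) (hirr : ∀ v, ¬ nb v v) (p : MvPolynomial V K) :
    p ∈ edgeI K nb ↔ ∀ m, coeff m p ≠ 0 → Bad nb m := by
  have h1 : edgeI K nb = Ideal.span ((fun s => monomial s (1 : K)) ''
      {s | ∃ a b, nb a b ∧ s = Finsupp.single a 1 + Finsupp.single b 1}) := by
    unfold edgeI
    congr 1
    ext p
    simp only [Set.mem_ofPred_eq, Set.mem_image]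
    constructor
    · rintro ⟨a, b, hab, rfl⟩
      exact ⟨_, ⟨a, b, hab, rfl⟩, by simp [X, monomial_mul]⟩
    · rintro ⟨s, ⟨a, b, hab, rfl⟩, rfl⟩
      exact ⟨a, b, hab, by simp [X, monomial_mul]⟩
  rw [h1, mem_ideal_span_monomial_image]
  constructor
  · intro h m hm
    obtain ⟨s, ⟨a, b, hab, rfl⟩, hs⟩ := h m (mem_support_iff.mpr hm)
    have hne : a ≠ b := fun h => hirr a (h ▸ hab)
    refine ⟨a, b, hab, ?_, ?_⟩
    · have := hs a
      rw [Finsupp.add_apply, Finsupp.single_eq_same] at this
      omega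
    · have := hs b
      rw [Finsupp.add_apply, Finsupp.single_eq_same] at this
      omega
  · intro h m hm
    obtain ⟨a, b, hab, ha, hb⟩ := h m (mem_support_iff.mp hm)
    have hne : a ≠ b := fun h => hirr a (h ▸ hab)
    refine ⟨_, ⟨a, b, hab, rfl⟩, ?_⟩
    intro v
    rw [Finsupp.add_apply, Finsupp.single_apply, Finsupp.single_apply]
    by_cases h1 : a = v
    · have h2 : ¬ b = v := fun h => hne (h1.trans h.symm)
      rw [if_pos h1, if_neg h2]
      subst h1; omega
    · by_cases h2 : b = v
      · rw [if_neg h1, if_pos h2]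
        subst h2; omega
      · rw [if_neg h1, if_neg h2]
        omega

variable {nb : V → V → Prop} (hirr : ∀ v, ¬ nb v v)
include hirr

theorem mem_InI_edgeI {f : Finset V → MvPolynomial V K} :
    f ∈ InI (edgeI K nb) ↔ ∀ A m, coeff m (f A) ≠ 0 → Bad nb m := by
  rw [mem_InI]
  exact forall_congr' fun A => mem_edgeI nb hirr (f A)

theorem X_smul_mem_InI_edgeI {u : V} {f : Finset V → MvPolynomial V K} :
    (X u : MvPolynomial V K) • f ∈ InI (edgeI K nb) ↔
      ∀ A m, coeff m (f A) ≠ 0 → Bad nb (Finsupp.single u 1 + m) := by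
  rw [mem_InI_edgeI hirr]
  refine forall_congr' fun A => ?_
  constructor
  · intro h m hm
    apply h
    rw [Pi.smul_apply, smul_eq_mul, coeff_X_mul]
    exact hm
  · intro h m hm
    rw [Pi.smul_apply, smul_eq_mul, coeff_X_mul'] at hm
    split_ifs at hm with hu
    · have := h _ hm
      rwa [add_comm, tsub_add_cancel_of_le] at this
      rw [Finsupp.single_le_iff]
      exact Nat.one_le_iff_ne_zero.mpr (Finsupp.mem_support_iff.mp hu)
    · exact absurd rfl hm

/-- changing the multiplier -/
theorem colon {u v : V} {μ : V →₀ ℕ} {f : Finset V → MvPolynomial V K} (hf : f ∈ Sup K {μ})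
    (h : ∀ m : V →₀ ℕ, (∀ x, m x ≠ 0 → μ x ≠ 0) → Bad nb (Finsupp.single u 1 + m) →
      Bad nb (Finsupp.single v 1 + m))
    (hu : (X u : MvPolynomial V K) • f ∈ InI (edgeI K nb)) :
    (X v : MvPolynomial V K) • f ∈ InI (edgeI K nb) := by
  rw [X_smul_mem_InI_edgeI hirr] at hu ⊢
  intro A m hm
  refine h m ?_ (hu A m hm)
  intro x hx
  have := hf A m hm
  rw [Set.mem_singleton_iff] at this
  rw [← this, Finsupp.add_apply]
  omega

/-- removing the multiplier -/
theorem colon_one {u : V} {μ : V →₀ ℕ} {f : Finset V → MvPolynomial V K} (hf : f ∈ Sup K {μ})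
    (h : ∀ m : V →₀ ℕ, (∀ x, m x ≠ 0 → μ x ≠ 0) → Bad nb (Finsupp.single u 1 + m) → Bad nb m)
    (hu : (X u : MvPolynomial V K) • f ∈ InI (edgeI K nb)) :
    f ∈ InI (edgeI K nb) := by
  rw [X_smul_mem_InI_edgeI hirr] at hu
  rw [mem_InI_edgeI hirr]
  intro A m hm
  refine h m ?_ (hu A m hm)
  intro x hx
  have := hf A m hm
  rw [Set.mem_singleton_iff] at this
  rw [← this, Finsupp.add_apply]
  omega

theorem XX_smul_mem {a b : V} (hab : nb a b) (f : Finset V → MvPolynomial V K) :
    (X a : MvPolynomial V K) • (X b : MvPolynomial V K) • f ∈ InI (edgeI K nb) := by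
  intro A
  rw [Pi.smul_apply, Pi.smul_apply, smul_smul, smul_eq_mul]
  exact Ideal.mul_mem_right _ _ (Ideal.subset_span ⟨a, b, hab, rfl⟩)

variable (hsymm : ∀ a b, nb a b → nb b a)
include hsymm

theorem bad_add_iff {u : V} {m : V →₀ ℕ} :
    Bad nb (Finsupp.single u 1 + m) ↔ Bad nb m ∨ ∃ q, nb u q ∧ m q ≠ 0 := by
  constructor
  · rintro ⟨a, b, hab, ha, hb⟩
    rw [Finsupp.add_apply, Finsupp.single_apply] at ha hb
    by_cases h1 : u = a
    · subst h1
      right
      refine ⟨b, hab, ?_⟩
      have : u ≠ b := fun h => hirr u (h ▸ hab)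
      rw [if_neg this] at hb
      omega
    · by_cases h2 : u = b
      · subst h2
        right
        refine ⟨a, hsymm _ _ hab, ?_⟩
        rw [if_neg h1] at ha
        omega
      · left
        rw [if_neg h1] at ha
        rw [if_neg h2] at hb
        exact ⟨a, b, hab, by omega, by omega⟩
  · rintro (⟨a, b, hab, ha, hb⟩ | ⟨q, hq, hm⟩)
    · exact ⟨a, b, hab, by rw [Finsupp.add_apply]; omega, by rw [Finsupp.add_apply]; omega⟩
    · exact ⟨u, q, hq, by rw [Finsupp.add_apply, Finsupp.single_eq_same]; omega,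
        by rw [Finsupp.add_apply]; omega⟩

/-- Lemma A: peel off the vertices dominated by `u`. -/
theorem peelA (u : V) (T : List V) (μ : V →₀ ℕ)
    (hT : T.Nodup) (hμT : ∀ v ∈ T, μ v = 0) (huT : ∀ v ∈ T, ¬ nb u v)
    (hdom : ∀ v ∈ T, ∀ x, μ x ≠ 0 → nb u x → nb v x)
    (c : Finset V → MvPolynomial V K) (hc : c ∈ Sup K {ls T + μ})
    (hdc : koszulD K (MvPolynomial V K) c ∈ InI (edgeI K nb))
    (huc : (X u : MvPolynomial V K) • c ∈ InI (edgeI K nb)) :
    ∃ c1 ∈ Sup K {μ}, c - wl K (MvPolynomial V K) T c1 ∈ InI (edgeI K nb) ∧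
      koszulD K (MvPolynomial V K) c1 ∈ InI (edgeI K nb) ∧
      (X u : MvPolynomial V K) • c1 ∈ InI (edgeI K nb) := by
  induction T generalizing c with
  | nil =>
    refine ⟨c, by simpa using hc, by simp, hdc, huc⟩
  | cons v T ih =>
    rw [ls_cons, add_assoc] at hc
    obtain ⟨a, b, ha, hb, hna, hnb, hcab⟩ := exists_dec (ls T + μ) v c hc
    have h1 : (X v : MvPolynomial V K) • ((X u : MvPolynomial V K) • a) +
        wedge K (MvPolynomial V K) v ((X u : MvPolynomial V K) • b) ∈ InI (edgeI K nb) := by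
      rw [map_smul, smul_comm (X v : MvPolynomial V K), ← smul_add, ← hcab]
      exact huc
    obtain ⟨h2, h3⟩ := InI.indep (hna.smul _) (hnb.smul _) h1
    -- X v • a in I
    have h4 : (X v : MvPolynomial V K) • a ∈ InI (edgeI K nb) := by
      have h5 : (X u : MvPolynomial V K) • ((X v : MvPolynomial V K) • a) ∈ InI (edgeI K nb) := by
        rw [smul_comm]; exact h2
      have hXa : (X v : MvPolynomial V K) • a ∈ Sup K {Finsupp.single v 1 + (ls T + μ)} :=
        X_smul_mem_Sup (by
          intro ν hν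
          rw [Set.mem_singleton_iff] at hν ⊢
          rw [hν, add_comm]) ha
      rw [X_smul_mem_InI_edgeI hirr] at h2 ⊢
      intro A m hm
      have hb0 := (X_smul_mem_InI_edgeI hirr).mp h5 A (Finsupp.single v 1 + m) (by
        rw [Pi.smul_apply, smul_eq_mul, coeff_X_mul]; exact hm)
      rw [bad_add_iff hirr hsymm] at hb0
      rcases hb0 with hb0 | ⟨q, hq, hmq⟩
      · exact hb0
      · have hqv : q ≠ v := fun h => huT v (by simp) (h ▸ hq)
        rw [Finsupp.add_apply, Finsupp.single_eq_of_ne hqv, zero_add] at hmq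
        have hdeg := ha A m hm
        rw [Set.mem_singleton_iff] at hdeg
        have hne : (ls T + μ) q ≠ 0 := by
          rw [← hdeg, Finsupp.add_apply]; omega
        have hqT : q ∉ T := fun h => huT q (by simp [h]) hq
        have hls : ls T q = 0 := by
          by_contra h
          exact hqT ((ls_apply_ne_zero T q).mp h)
        rw [Finsupp.add_apply, hls, zero_add] at hne
        rw [bad_add_iff hirr hsymm]
        right
        exact ⟨q, hdom v (by simp) q hne hq, hmq⟩
    have h6 : c - wedge K (MvPolynomial V K) v b ∈ InI (edgeI K nb) := by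
      rw [hcab, add_sub_cancel_right]; exact h4
    have h7 : koszulD K (MvPolynomial V K) b ∈ InI (edgeI K nb) := by
      have h8 : koszulD K (MvPolynomial V K) (wedge K (MvPolynomial V K) v b) ∈
          InI (edgeI K nb) := by
        have := Submodule.sub_mem _ hdc (InI.koszulD h6)
        rw [← map_sub] at this
        simpa using this
      rw [koszulD_wedge, sub_eq_add_neg, ← map_neg] at h8
      have h9 := (InI.indep hnb hnb.koszulD.neg h8).2
      have := neg_mem h9
      rwa [neg_neg] at this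
    obtain ⟨c1, hc1, h10, h11, h12⟩ := ih (List.nodup_cons.mp hT).2
      (fun v hv => hμT v (by simp [hv])) (fun v hv => huT v (by simp [hv]))
      (fun v hv => hdom v (by simp [hv])) b hb h7 h3
    refine ⟨c1, hc1, ?_, h11, h12⟩
    have : c - wl K (MvPolynomial V K) (v :: T) c1 =
        (c - wedge K (MvPolynomial V K) v b) +
          wedge K (MvPolynomial V K) v (b - wl K (MvPolynomial V K) T c1) := by
      rw [wl_cons, map_sub]; abel
    rw [this]
    exact Submodule.add_mem _ h6 (InI.wedge h10 v)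

/-- Lemma C: peel off the neighbours of `u`. -/
theorem peelC (u : V) (B : List V) (μ : V →₀ ℕ) (huB : ∀ v ∈ B, nb u v)
    (a : Finset V → MvPolynomial V K) (ha : a ∈ Sup K {ls B + μ})
    (hda : (X u : MvPolynomial V K) • koszulD K (MvPolynomial V K) a ∈ InI (edgeI K nb)) :
    ∃ z ∈ Sup K {μ},
      (X u : MvPolynomial V K) • (a - wl K (MvPolynomial V K) B z) ∈ InI (edgeI K nb) ∧
      (X u : MvPolynomial V K) • koszulD K (MvPolynomial V K) z ∈ InI (edgeI K nb) := by
  induction B generalizing a with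
  | nil => exact ⟨a, by simpa using ha, by simp, hda⟩
  | cons v B ih =>
    rw [ls_cons, add_assoc] at ha
    obtain ⟨a1, a2, ha1, ha2, hn1, hn2, haa⟩ := exists_dec (ls B + μ) v a ha
    have huv := huB v (by simp)
    have h1 : (X u : MvPolynomial V K) • (X v : MvPolynomial V K) • a1 ∈ InI (edgeI K nb) :=
      XX_smul_mem hirr huv a1
    have h2 : (X u : MvPolynomial V K) • koszulD K (MvPolynomial V K)
        (wedge K (MvPolynomial V K) v a2) ∈ InI (edgeI K nb) := by
      have h3 := Submodule.sub_mem _ hda (XX_smul_mem hirr huv (koszulD K _ a1))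
      rw [← smul_sub, ← map_smul (koszulD K (MvPolynomial V K)), ← map_sub, haa,
        add_sub_cancel_left] at h3
      exact h3
    have h4 : (X u : MvPolynomial V K) • koszulD K (MvPolynomial V K) a2 ∈
        InI (edgeI K nb) := by
      rw [koszulD_wedge, smul_sub, sub_eq_add_neg, ← map_smul, ← map_neg,
        smul_comm (X u : MvPolynomial V K) (X v : MvPolynomial V K)] at h2
      have h9 := (InI.indep (hn2.smul _) (hn2.koszulD.smul _).neg h2).2
      have := neg_mem h9
      rwa [neg_neg] at this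
    obtain ⟨z, hz, h5, h6⟩ := ih (fun v hv => huB v (by simp [hv])) a2 ha2 h4
    refine ⟨z, hz, ?_, h6⟩
    have : (X u : MvPolynomial V K) • (a - wl K (MvPolynomial V K) (v :: B) z) =
        (X u : MvPolynomial V K) • (X v : MvPolynomial V K) • a1 +
          wedge K (MvPolynomial V K) v
            ((X u : MvPolynomial V K) • (a2 - wl K (MvPolynomial V K) B z)) := by
      rw [wl_cons, haa, map_smul, map_sub, ← smul_add]
      congr 1
      abel
    rw [this]
    exact Submodule.add_mem _ h1 (InI.wedge h5 v)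

/-- Every cycle modulo the edge ideal which involves a complete bipartite block `LA × LB`
such that the first vertex `u` of `LA` is adjacent only to `LB` and the first vertex `w` of `LB`
only to `LA` is, modulo boundaries, the product of the block cycle and a smaller cycle. -/
theorem block (u w : V) (T B : List V) (μ : V →₀ ℕ)
    (hnodup : (u :: T).Nodup)
    (hdisj : ∀ v ∈ u :: T, v ∉ w :: B)
    (hμA : ∀ v ∈ u :: T, μ v = 0)
    (hcomplete : ∀ a ∈ u :: T, ∀ b ∈ w :: B, nb a b)
    (hu : ∀ x, (ls (u :: T) + (ls (w :: B) + μ)) x ≠ 0 → nb u x → x ∈ w :: B)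
    (hw : ∀ x, (ls (u :: T) + (ls (w :: B) + μ)) x ≠ 0 → nb w x → x ∈ u :: T)
    (z : Finset V → MvPolynomial V K)
    (hz : z ∈ Sup K {ls (u :: T) + (ls (w :: B) + μ)})
    (hμB : ∀ v ∈ w :: B, μ v = 0)
    (hd : koszulD K (MvPolynomial V K) z ∈ InI (edgeI K nb)) :
    ∃ y ∈ Sup K {ls (u :: T) + (ls (w :: B) + μ)}, ∃ z' ∈ Sup K {μ},
      koszulD K (MvPolynomial V K) z' ∈ InI (edgeI K nb) ∧
      z - koszulD K (MvPolynomial V K) y -
        wl K (MvPolynomial V K) (u :: T) (dl K (MvPolynomial V K) (w :: B) z') ∈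
          InI (edgeI K nb) := by
  -- step with u
  have hz0 : z ∈ Sup K {Finsupp.single u 1 + (ls T + (ls (w :: B) + μ))} := by
    rw [ls_cons, add_assoc] at hz; exact hz
  obtain ⟨a0, b0, c, ha0, hb0, hc, hna0, hnb0, hnc, hz1, hc0, hz2, hXc, hdc⟩ :=
    exists_step (edgeI K nb) _ u z hz0 hd
  -- peel T
  obtain ⟨c1, hc1, hcc1, hdc1, huc1⟩ := peelA hirr hsymm u T (ls (w :: B) + μ)
    (List.nodup_cons.mp hnodup).2
    (by
      intro v hv
      rw [Finsupp.add_apply, hμA v (by simp [hv]), add_zero]
      by_contra h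
      exact hdisj v (by simp [hv]) ((ls_apply_ne_zero _ _).mp h))
    (by
      intro v hv h
      have := hu v (by
        rw [Finsupp.add_apply]
        have : ls (u :: T) v ≠ 0 := (ls_apply_ne_zero _ _).mpr (by simp [hv])
        omega) h
      exact hdisj v (by simp [hv]) this)
    (by
      intro v hv x hx h
      have := hu x (by rw [Finsupp.add_apply]; omega) h
      exact hcomplete v (by simp [hv]) x this)
    c hc hdc hXc
  -- step with w
  have hc1' : c1 ∈ Sup K {Finsupp.single w 1 + (ls B + μ)} := by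
    rw [ls_cons, add_assoc] at hc1; exact hc1
  obtain ⟨a, b, c', ha, hb, hc', hna, hnb, hnc', hc1ab, hc'b, hc1d, hXc', hdc'⟩ :=
    exists_step (edgeI K nb) _ w c1 hc1' hdc1
  have hext : ∀ x, (ls B + μ) x ≠ 0 → (ls (u :: T) + (ls (w :: B) + μ)) x ≠ 0 := by
    intro x hx
    rw [ls_cons w B]
    simp only [Finsupp.add_apply] at hx ⊢
    omega
  have hwiso : ∀ x, (ls B + μ) x ≠ 0 → ¬ nb w x := by
    intro x hx h
    have h1 := hw x (hext x hx) h
    have h2 : μ x = 0 := hμA x h1
    rw [Finsupp.add_apply, h2, add_zero] at hx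
    exact hdisj x h1 (by simp [(ls_apply_ne_zero _ _).mp hx])
  have hInc' : c' ∈ InI (edgeI K nb) := by
    refine colon_one hirr hc' ?_ hXc'
    intro m hm hbad
    rw [bad_add_iff hirr hsymm] at hbad
    rcases hbad with hbad | ⟨q, hq, hmq⟩
    · exact hbad
    · exact absurd hq (hwiso q (hm q hmq))
  have hub : (X u : MvPolynomial V K) • b ∈ InI (edgeI K nb) := by
    have h1 : (X w : MvPolynomial V K) • ((X u : MvPolynomial V K) • a) +
        wedge K (MvPolynomial V K) w ((X u : MvPolynomial V K) • b) ∈ InI (edgeI K nb) := by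
      rw [map_smul, smul_comm (X w : MvPolynomial V K), ← smul_add, ← hc1ab]
      exact huc1
    exact (InI.indep (hna.smul _) (hnb.smul _) h1).2
  have huda : (X u : MvPolynomial V K) • koszulD K (MvPolynomial V K) a ∈ InI (edgeI K nb) := by
    have : koszulD K (MvPolynomial V K) a = c' - b := by rw [hc'b]; abel
    rw [this, smul_sub]
    exact Submodule.sub_mem _ (Submodule.smul_mem _ _ hInc') hub
  -- peel B
  obtain ⟨z', hz', haz', hudz'⟩ := peelC hirr hsymm u B μ
    (fun v hv => hcomplete u (by simp) v (by simp [hv])) a ha huda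
  have huiso : ∀ x, μ x ≠ 0 → ¬ nb u x := by
    intro x hx h
    have h1 := hu x (by rw [Finsupp.add_apply, Finsupp.add_apply]; omega) h
    exact hx (hμB x h1)
  have hdz' : koszulD K (MvPolynomial V K) z' ∈ InI (edgeI K nb) := by
    refine colon_one hirr (koszulD_mem_Sup hz') ?_ hudz'
    intro m hm hbad
    rw [bad_add_iff hirr hsymm] at hbad
    rcases hbad with hbad | ⟨q, hq, hmq⟩
    · exact hbad
    · exact absurd hq (huiso q (hm q hmq))
  -- the remainder a1 is killed by LA
  set a1 := a - wl K (MvPolynomial V K) B z' with ha1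
  have ha1mem : a1 ∈ Sup K {ls B + μ} := Submodule.sub_mem _ ha (wl_mem_Sup B hz')
  have hkill : ∀ v ∈ u :: T, (X v : MvPolynomial V K) • a1 ∈ InI (edgeI K nb) := by
    intro v hv
    refine colon hirr ha1mem ?_ haz'
    intro m hm hbad
    rw [bad_add_iff hirr hsymm] at hbad ⊢
    rcases hbad with hbad | ⟨q, hq, hmq⟩
    · exact Or.inl hbad
    · right
      have h1 := hu q (hext q (hm q hmq)) hq
      exact ⟨q, hcomplete v hv q h1, hmq⟩
  set y1 := wedge K (MvPolynomial V K) w a1 with hy1
  have hkill' : ∀ v ∈ u :: T, (X v : MvPolynomial V K) • y1 ∈ InI (edgeI K nb) := by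
    intro v hv
    rw [hy1, ← map_smul]
    exact InI.wedge (hkill v hv) w
  have hdl : ∀ (l : List V) (f : Finset V → MvPolynomial V K),
      (∀ v ∈ l, (X v : MvPolynomial V K) • f ∈ InI (edgeI K nb)) →
      dl K (MvPolynomial V K) l f ∈ InI (edgeI K nb) := by
    intro l f
    induction l with
    | nil => intro _; simp
    | cons x l ih =>
      intro h
      rw [dl_cons]
      refine Submodule.sub_mem _ ?_ (InI.wedge (ih fun v hv => h v (by simp [hv])) x)
      rw [← map_smul]
      exact InI.wl (h x (by simp)) l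
  have hdl1 := hdl (u :: T) y1 hkill'
  -- assemble
  set LA := u :: T with hLA
  set LB := w :: B with hLB
  have hsq : ((-1 : ℤ) ^ LA.length) * ((-1 : ℤ) ^ LA.length) = 1 := by
    rw [← pow_add, ← two_mul, pow_mul]; simp
  have hmemy : wedge K (MvPolynomial V K) u a0 +
      ((-1 : ℤ) ^ LA.length) • wl K (MvPolynomial V K) LA y1 ∈ Sup K {ls LA + (ls LB + μ)} := by
    refine Submodule.add_mem _ ?_ (zsmul_mem (wl_mem_Sup LA ?_) _)
    · refine wedge_mem_Sup ?_ ha0
      intro κ hκ
      rw [Set.mem_singleton_iff] at hκ ⊢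
      rw [hκ, hLA, ls_cons u T]; ac_rfl
    · refine wedge_mem_Sup ?_ ha1mem
      intro κ hκ
      rw [Set.mem_singleton_iff] at hκ ⊢
      rw [hκ, hLB, ls_cons w B]; ac_rfl
  refine ⟨wedge K (MvPolynomial V K) u a0 +
    ((-1 : ℤ) ^ LA.length) • wl K (MvPolynomial V K) LA y1, hmemy, z', hz', hdz', ?_⟩
  have key : z - koszulD K (MvPolynomial V K) (wedge K (MvPolynomial V K) u a0 +
      ((-1 : ℤ) ^ LA.length) • wl K (MvPolynomial V K) LA y1) -
        wl K (MvPolynomial V K) LA (dl K (MvPolynomial V K) LB z') =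
      wedge K (MvPolynomial V K) u (c - wl K (MvPolynomial V K) T c1) +
      wl K (MvPolynomial V K) LA (wedge K (MvPolynomial V K) w c') -
      ((-1 : ℤ) ^ LA.length) • dl K (MvPolynomial V K) LA y1 +
      ((-1 : ℤ) ^ LB.length) • wl K (MvPolynomial V K) LA
        (wl K (MvPolynomial V K) LB (koszulD K (MvPolynomial V K) z')) := by
    have e1 : koszulD K (MvPolynomial V K) (((-1 : ℤ) ^ LA.length) •
        wl K (MvPolynomial V K) LA y1) = ((-1 : ℤ) ^ LA.length) • dl K (MvPolynomial V K) LA y1 +
        wl K (MvPolynomial V K) LA (koszulD K (MvPolynomial V K) y1) := by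
      rw [map_zsmul, koszulD_wl, smul_add, smul_smul, hsq, one_smul]
    have e2 : wedge K (MvPolynomial V K) w a = y1 + wl K (MvPolynomial V K) LB z' := by
      rw [hy1, ha1, hLB, wl_cons, map_sub]; abel
    have e3 : koszulD K (MvPolynomial V K) (wedge K (MvPolynomial V K) w a) =
        koszulD K (MvPolynomial V K) y1 + (dl K (MvPolynomial V K) LB z' +
          ((-1 : ℤ) ^ LB.length) • wl K (MvPolynomial V K) LB
            (koszulD K (MvPolynomial V K) z')) := by
      rw [e2, map_add, koszulD_wl]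
    have e4 : wl K (MvPolynomial V K) LA c1 =
        wl K (MvPolynomial V K) LA (koszulD K (MvPolynomial V K) y1) +
        wl K (MvPolynomial V K) LA (dl K (MvPolynomial V K) LB z') +
        ((-1 : ℤ) ^ LB.length) • wl K (MvPolynomial V K) LA
          (wl K (MvPolynomial V K) LB (koszulD K (MvPolynomial V K) z')) +
        wl K (MvPolynomial V K) LA (wedge K (MvPolynomial V K) w c') := by
      conv_lhs => rw [hc1d, e3]
      simp only [map_add, map_zsmul]
      abel
    have e5 : wedge K (MvPolynomial V K) u (c - wl K (MvPolynomial V K) T c1) =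
        wedge K (MvPolynomial V K) u c - wl K (MvPolynomial V K) LA c1 := by
      rw [map_sub, hLA, wl_cons]
    rw [map_add, e1, e5, e4]
    conv_lhs => rw [hz2]
    abel
  rw [key]
  refine Submodule.add_mem _ (Submodule.sub_mem _ (Submodule.add_mem _ (InI.wedge hcc1 u)
    (InI.wl (InI.wedge hInc' w) LA)) (zsmul_mem hdl1 _)) (zsmul_mem (InI.wl (InI.wl hdz' LB) LA) _)

end edge

end Pool.Agent.BEI
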