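import Mathlib

/-!
# Graded Betti numbers through Koszul homology, binomial edge ideals, initial ideals
-/

namespace Pool.Agent.BEI

open MvPolynomial

section Koszul

variable (K : Type*) [Field K] {V : Type*} [Fintype V] [LinearOrder V]

/-- The Koszul sign `(-1)^(number of elements of B smaller than a)`. -/
def ksign (a : V) (B : Finset V) : ℤ := (-1) ^ (B.filter (· < a)).card

/-- The Koszul differential of a module `M` over `S = K[V]` with respect to the variables.
The Koszul complex `M ⊗ ⋀ S^V` is written as the module of functions `f : Finset V → M`,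
where `f A` is the coefficient of the wedge `e_A` of the basis vectors `e_v`, `v ∈ A`,
in increasing order. Then `d (m e_A) = ∑_{a ∈ A} ± X_a m e_{A \ a}`, so that the coefficient
of `d f` at `B` is `∑_{a ∉ B} ± X_a f (B ∪ {a})`. -/
noncomputable def koszulD (M : Type*) [AddCommGroup M] [Module (MvPolynomial V K) M] :
    (Finset V → M) →ₗ[MvPolynomial V K] (Finset V → M) :=
  LinearMap.pi fun B => ∑ a ∈ Finset.univ \ B,
    (ksign a B • (X a : MvPolynomial V K)) • LinearMap.proj (insert a B)

variable {K}

/-- The degree `e` piece of `S/I` (`S = K[V]`, standard grading): the classes of the homogeneous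
polynomials of degree `e`. -/
noncomputable def gradedPiece (I : Ideal (MvPolynomial V K)) (e : ℕ) :
    Submodule K (MvPolynomial V K ⧸ I) :=
  (homogeneousSubmodule V K e).map (Ideal.Quotient.mkₐ K I).toLinearMap

/-- The part of homological degree `i` and internal degree `j` of the Koszul complex of `S/I`:
the sums of `m e_A` with `|A| = i` and `m ∈ S/I` of degree `j - i`. -/
noncomputable def koszulPiece (I : Ideal (MvPolynomial V K)) (i j : ℕ) :
    Submodule K (Finset V → MvPolynomial V K ⧸ I) :=
  Submodule.pi Set.univ fun A => if A.card = i ∧ i ≤ j then gradedPiece I (j - i) else ⊥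

/-- Koszul cycles of homological degree `i` and internal degree `j`. -/
noncomputable def koszulCycles (I : Ideal (MvPolynomial V K)) (i j : ℕ) :
    Submodule K (Finset V → MvPolynomial V K ⧸ I) :=
  LinearMap.ker ((koszulD K (MvPolynomial V K ⧸ I)).restrictScalars K) ⊓ koszulPiece I i j

/-- Koszul boundaries of homological degree `i` and internal degree `j`. -/
noncomputable def koszulBoundaries (I : Ideal (MvPolynomial V K)) (i j : ℕ) :
    Submodule K (Finset V → MvPolynomial V K ⧸ I) :=
  (koszulPiece I (i + 1) j).map ((koszulD K (MvPolynomial V K ⧸ I)).restrictScalars K)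

/-- The graded Betti number `β_{i,j}(S/I) = dim_K Tor_i^S(S/I, K)_j` of `S/I`, `S = K[V]`,
computed as the dimension of the degree `j` part of the `i`-th Koszul homology of `S/I`
(the Koszul complex on the variables is the minimal graded free resolution of `K`). -/
noncomputable def gradedBetti (I : Ideal (MvPolynomial V K)) (i j : ℕ) : ℕ :=
  Module.finrank K
    (↥(koszulCycles I i j) ⧸ (koszulBoundaries I i j).submoduleOf (koszulCycles I i j))

end Koszul

/-- The initial ideal `in_<(J)`: the ideal generated by the leading terms of the elements of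
`J` with respect to the monomial order `m`. -/
noncomputable def initialIdeal {V : Type*} {K : Type*} [Field K] (m : MonomialOrder V)
    (J : Ideal (MvPolynomial V K)) : Ideal (MvPolynomial V K) :=
  Ideal.span (m.leadingTerm '' (J : Set (MvPolynomial V K)))

section BinomialEdge

variable (K : Type*) [Field K] {n : ℕ}

/-- The variables `x_1, …, x_n, y_1, …, y_n` of `S`, linearly ordered in this way
(the smaller a variable is in this linear order, the bigger it is in the lexicographic
monomial order). -/
abbrev Vars (n : ℕ) : Type := Fin n ⊕ₗ Fin n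

/-- index of the variable `x_i` -/
def xv (i : Fin n) : Vars n := toLex (Sum.inl i)

/-- index of the variable `y_i` -/
def yv (i : Fin n) : Vars n := toLex (Sum.inr i)

/-- The binomial edge ideal `J_G = (x_i y_j - x_j y_i : {i,j} ∈ E(G), i < j)`. -/
noncomputable def binomialEdgeIdeal (G : SimpleGraph (Fin n)) :
    Ideal (MvPolynomial (Vars n) K) :=
  Ideal.span {f | ∃ i j : Fin n, i < j ∧ G.Adj i j ∧
    f = X (xv i) * X (yv j) - X (xv j) * X (yv i)}

/-- The labelling of `G` by `1, …, n` is closed: for edges `{i,j}`, `{i,k}` with `i < j`, `i < k`,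
`j ≠ k`, also `{j,k}` is an edge, and for edges `{i,k}`, `{j,k}` with `i < k`, `j < k`, `i ≠ j`,
also `{i,j}` is an edge. -/
def IsClosedLabelling (G : SimpleGraph (Fin n)) : Prop :=
  (∀ i j k : Fin n, G.Adj i j → G.Adj i k → i < j → i < k → j ≠ k → G.Adj j k) ∧
  (∀ i j k : Fin n, G.Adj i k → G.Adj j k → i < k → j < k → i ≠ j → G.Adj i j)

end BinomialEdge

end Pool.Agent.BEI
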