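import Mathlib

/-!
# Some linear algebra: leading forms and dimension counts
-/

namespace Pool.Agent.BEI

open Module

section

variable {K V W : Type*} [Field K] [AddCommGroup V] [Module K V] [AddCommGroup W] [Module K W]

theorem finrank_map_add_finrank_inf_ker (f : V →ₗ[K] W) (U : Submodule K V)
    [FiniteDimensional K U] :
    finrank K (U.map f) + finrank K (U ⊓ LinearMap.ker f : Submodule K V) = finrank K U := by
  have h := LinearMap.finrank_range_add_finrank_ker (f.domRestrict U)
  rw [LinearMap.range_domRestrict] at h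
  have h2 : finrank K (LinearMap.ker (f.domRestrict U)) =
      finrank K (U ⊓ LinearMap.ker f : Submodule K V) := by
    rw [LinearMap.ker_domRestrict, ← Submodule.map_comap_subtype]
    exact LinearEquiv.finrank_eq
      (Submodule.equivMapOfInjective U.subtype U.injective_subtype _)
  rw [h2] at h
  exact h

theorem finrank_map_of_inj (f : V →ₗ[K] W) (U : Submodule K V)
    (h : ∀ x ∈ U, f x = 0 → x = 0) : finrank K (U.map f) = finrank K U := by
  have hinj : Function.Injective (f.domRestrict U) := by
    rw [← LinearMap.ker_eq_bot, LinearMap.ker_eq_bot']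
    rintro ⟨x, hx⟩ h0
    exact Subtype.ext (h x hx h0)
  have := LinearEquiv.finrank_eq (LinearEquiv.ofInjective _ hinj)
  rw [LinearMap.range_domRestrict] at this
  exact this.symm

theorem finrank_quot_submoduleOf (A B : Submodule K V) [FiniteDimensional K A] (h : B ≤ A) :
    finrank K (A ⧸ B.submoduleOf A) = finrank K A - finrank K B := by
  have h1 := Submodule.finrank_quotient_add_finrank (B.submoduleOf A)
  have h2 := LinearEquiv.finrank_eq (Submodule.submoduleOfEquivOfLe h)
  omega

/-- If vectors have linearly independent leading forms then they are linearly independent. -/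
theorem linInd_of_lead {ι : Type*} (F Gr : ℕ → Submodule K V) (hmono : Monotone F)
    (hGF : ∀ ω, Gr ω ≤ F (ω + 1)) (hdisj : ∀ ω x, x ∈ Gr ω → x ∈ F ω → x = 0)
    (u u' : ι → V) (w : ι → ℕ) (hu : ∀ s, u s ∈ Gr (w s)) (hu' : ∀ s, u' s - u s ∈ F (w s))
    (hli : LinearIndependent K u) : LinearIndependent K u' := by
  classical
  rw [linearIndependent_iff'] at hli ⊢
  intro s c hsum
  by_contra hcon
  push Not at hcon
  obtain ⟨i1, hi1, hci1⟩ := hcon
  obtain ⟨i0, hi0, hmax⟩ := Finset.exists_max_image (s.filter fun i => c i ≠ 0) w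
    ⟨i1, by simp [hi1, hci1]⟩
  rw [Finset.mem_filter] at hi0
  set ω := w i0 with hω
  have hle : ∀ i ∈ s, c i ≠ 0 → w i ≤ ω := fun i hi hci => hmax i (by simp [hi, hci])
  have hyG : ∑ i ∈ s.filter (fun i => w i = ω), c i • u i ∈ Gr ω := by
    refine Submodule.sum_mem _ fun i hi => Submodule.smul_mem _ _ ?_
    rw [Finset.mem_filter] at hi
    rw [← hi.2]
    exact hu i
  have hyF : ∑ i ∈ s.filter (fun i => w i = ω), c i • u i ∈ F ω := by
    have h1 : ∑ i ∈ s.filter (fun i => w i = ω), c i • u i =
        - (∑ i ∈ s.filter (fun i => w i = ω), c i • (u' i - u i)) -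
          ∑ i ∈ s.filter (fun i => ¬ w i = ω), c i • u' i := by
      rw [← Finset.sum_filter_add_sum_filter_not s (fun i => w i = ω)] at hsum
      simp only [smul_sub, Finset.sum_sub_distrib]
      rw [eq_neg_of_add_eq_zero_right hsum]
      abel
    rw [h1]
    refine Submodule.sub_mem _ (Submodule.neg_mem _ (Submodule.sum_mem _ fun i hi =>
      Submodule.smul_mem _ _ ?_)) (Submodule.sum_mem _ fun i hi => ?_)
    · rw [Finset.mem_filter] at hi
      rw [← hi.2]
      exact hu' i
    · rw [Finset.mem_filter] at hi
      by_cases hci : c i = 0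
      · rw [hci, zero_smul]; exact Submodule.zero_mem _
      · have h2 : w i < ω := lt_of_le_of_ne (hle i hi.1 hci) hi.2
        refine Submodule.smul_mem _ _ ?_
        have h3 : u' i = (u' i - u i) + u i := by abel
        rw [h3]
        exact Submodule.add_mem _ (hmono h2.le (hu' i)) (hmono h2 (hGF _ (hu i)))
  have hy0 := hdisj ω _ hyG hyF
  have := hli (s.filter (fun i => w i = ω)) c hy0 i0 (by simp [hi0.1, hω])
  exact hi0.2 this

end

end Pool.Agent.BEI
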