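import Pool.Agent.BEI.Chains
import Pool.Agent.BEI.LinAlg

/-!
# The Koszul complex of `S/J` in terms of standard monomials
-/

namespace Pool.Agent.BEI

open MvPolynomial Finset Module

set_option linter.unusedSectionVars false

variable {K : Type*} [Field K] {V : Type*} [Fintype V] [LinearOrder V]

variable (K) in
/-- chains whose terms `m e_A` satisfy the condition `P A m` -/
def Cond (P : Finset V → (V →₀ ℕ) → Prop) : Submodule K (Finset V → MvPolynomial V K) where
  carrier := {f | ∀ A m, coeff m (f A) ≠ 0 → P A m}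
  add_mem' := by
    intro f g hf hg A m h
    rw [Pi.add_apply, coeff_add] at h
    by_cases h1 : coeff m (f A) = 0
    · rw [h1, zero_add] at h
      exact hg A m h
    · exact hf A m h1
  zero_mem' := by
    intro A m h
    simp at h
  smul_mem' := by
    intro c f hf A m h
    rw [Pi.smul_apply, coeff_smul] at h
    exact hf A m (fun h0 => h (by rw [h0, smul_zero]))

theorem mem_Cond {P : Finset V → (V →₀ ℕ) → Prop} {f : Finset V → MvPolynomial V K} :
    f ∈ Cond K P ↔ ∀ A m, coeff m (f A) ≠ 0 → P A m := Iff.rfl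

theorem Cond_mono {P Q : Finset V → (V →₀ ℕ) → Prop} (h : ∀ A m, P A m → Q A m) :
    Cond K P ≤ Cond K Q := fun _ hf A m hm => h A m (hf A m hm)

variable (K) in
/-- bihomogeneous chains -/
abbrev Wij (V : Type*) [Fintype V] [LinearOrder V] (i j : ℕ) :
    Submodule K (Finset V → MvPolynomial V K) :=
  Cond K fun A m => A.card = i ∧ m.degree + A.card = j

variable (K) in
/-- bihomogeneous chains with standard coefficients -/
abbrev Nij (nb : V → V → Prop) (i j : ℕ) : Submodule K (Finset V → MvPolynomial V K) :=
  Cond K fun A m => ¬ Bad nb m ∧ A.card = i ∧ m.degree + A.card = j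

theorem finiteDimensional_Wij (i j : ℕ) : FiniteDimensional K (Wij K V i j) := by
  classical
  set D : Set (V →₀ ℕ) := {m | m.degree ≤ j} with hD
  have hfin : D.Finite := Finsupp.finite_of_degree_le j
  have : Fintype D := hfin.fintype
  let φ : (Wij K V i j) →ₗ[K] (Finset V × D → K) :=
    { toFun := fun f p => coeff p.2.1 (f.1 p.1)
      map_add' := by intro f g; funext p; simp
      map_smul' := by intro c f; funext p; simp }
  refine FiniteDimensional.of_injective φ ?_
  rw [← LinearMap.ker_eq_bot, LinearMap.ker_eq_bot']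
  rintro ⟨f, hf⟩ h0
  apply Subtype.ext
  funext A
  ext m
  by_contra hne
  have h1 := hf A m hne
  have hm : m ∈ D := by
    rw [hD]
    change m.degree ≤ j
    omega
  have h2 := congrFun h0 (A, ⟨m, hm⟩)
  exact hne h2

theorem Nij_le_Wij (nb : V → V → Prop) (i j : ℕ) : Nij K nb i j ≤ Wij K V i j :=
  Cond_mono fun _ _ h => h.2

theorem finiteDimensional_Nij (nb : V → V → Prop) (i j : ℕ) :
    FiniteDimensional K (Nij K nb i j) := by
  have := finiteDimensional_Wij (K := K) (V := V) i j
  exact Submodule.finiteDimensional_of_le (Nij_le_Wij nb i j)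

theorem koszulD_mem_Wij {i j : ℕ} {f : Finset V → MvPolynomial V K} (hf : f ∈ Wij K V (i + 1) j) :
    koszulD K _ f ∈ Wij K V i j := by
  intro B m hm
  rw [koszulD_apply, coeff_sum] at hm
  obtain ⟨a, ha, hne⟩ := Finset.exists_ne_zero_of_sum_ne_zero hm
  simp only [mem_sdiff, mem_univ, true_and] at ha
  have hm' : coeff m ((X a : MvPolynomial V K) • f (insert a B)) ≠ 0 := coeff_zsmul_ne_zero hne
  rw [smul_eq_mul, coeff_X_mul'] at hm'
  split_ifs at hm' with hv
  · have h1 : (insert a B).card = i + 1 ∧ (m - Finsupp.single a 1).degree + (insert a B).card = j :=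
      hf _ _ hm'
    rw [Finset.card_insert_of_notMem ha] at h1
    have h2 : m.degree = (m - Finsupp.single a 1).degree + 1 := by
      conv_lhs => rw [← sub_single_add hv]
      rw [map_add, Finsupp.degree_single]
    omega
  · exact absurd rfl hm'

theorem weight_one_eq (m : V →₀ ℕ) : Finsupp.weight (1 : V → ℕ) m = m.degree := by
  rw [Finsupp.degree_eq_sum, Finsupp.weight_eq_sum]
  simp

/-- the component of multidegree `μ` of a chain -/
noncomputable def comp (μ : V →₀ ℕ) (f : Finset V → MvPolynomial V K) :
    Finset V → MvPolynomial V K := fun A =>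
  open Classical in
  if ind A ≤ μ then monomial (μ - ind A) (coeff (μ - ind A) (f A)) else 0

open Classical in
theorem coeff_comp (μ : V →₀ ℕ) (f : Finset V → MvPolynomial V K) (A : Finset V) (m : V →₀ ℕ) :
    coeff m (comp μ f A) = if m + ind A = μ then coeff m (f A) else 0 := by
  unfold comp
  split_ifs with h1 h2 h2
  · have h3 : μ - ind A = m := by rw [← h2]; simp
    rw [h3, coeff_monomial, if_pos rfl]
  · rw [coeff_monomial, if_neg]
    intro h3
    apply h2
    rw [← h3]
    exact tsub_add_cancel_of_le h1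
  · exfalso
    apply h1
    rw [← h2]
    exact le_add_self
  · rfl

theorem comp_mem_Sup (μ : V →₀ ℕ) (f : Finset V → MvPolynomial V K) : comp μ f ∈ Sup K {μ} := by
  classical
  intro A m hm
  rw [coeff_comp] at hm
  split_ifs at hm with h
  · exact h
  · exact absurd rfl hm

theorem comp_mem_Cond {P : Finset V → (V →₀ ℕ) → Prop} (μ : V →₀ ℕ)
    {f : Finset V → MvPolynomial V K} (hf : f ∈ Cond K P) : comp μ f ∈ Cond K P := by
  classical
  intro A m hm
  rw [coeff_comp] at hm
  split_ifs at hm with h
  · exact hf A m hm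
  · exact absurd rfl hm

theorem koszulD_comp (μ : V →₀ ℕ) (f : Finset V → MvPolynomial V K) :
    koszulD K _ (comp μ f) = comp μ (koszulD K _ f) := by
  classical
  funext B
  ext m
  have hpush : (if m + ind B = μ then coeff m (koszulD K _ f B) else 0) =
      ∑ a ∈ univ \ B, if m + ind B = μ then
        coeff m (ksign a B • ((X a : MvPolynomial V K) • f (insert a B))) else 0 := by
    split_ifs
    · rw [koszulD_apply, coeff_sum]
    · simp
  rw [coeff_comp, hpush, koszulD_apply, coeff_sum]
  refine Finset.sum_congr rfl ?_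
  intro a ha
  simp only [mem_sdiff, mem_univ, true_and] at ha
  have hz : ∀ (k : ℤ) (p : MvPolynomial V K), coeff m (k • p) = k • coeff m p := by
    intro k p
    exact map_zsmul (coeffAddMonoidHom (R := K) (σ := V) m) k p
  rw [hz, hz, smul_eq_mul, smul_eq_mul, coeff_X_mul', coeff_X_mul', coeff_comp]
  by_cases hv : a ∈ m.support
  · rw [if_pos hv, if_pos hv]
    have h1 : (m - Finsupp.single a 1) + ind (insert a B) = m + ind B := by
      rw [ind_insert a B ha, ← add_assoc, sub_single_add hv]
    rw [h1]
    split_ifs <;> simp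
  · rw [if_neg hv, if_neg hv]
    simp

theorem eq_sum_comp (f : Finset V → MvPolynomial V K) :
    ∃ D : Finset (V →₀ ℕ), f = ∑ μ ∈ D, comp μ f := by
  classical
  refine ⟨Finset.univ.biUnion fun A => (f A).support.image fun m => m + ind A, ?_⟩
  funext A
  ext m
  rw [Finset.sum_apply, coeff_sum]
  simp_rw [coeff_comp]
  rw [Finset.sum_ite_eq]
  by_cases h : coeff m (f A) = 0
  · rw [h]; simp
  · rw [if_pos]
    rw [Finset.mem_biUnion]
    exact ⟨A, Finset.mem_univ _, Finset.mem_image.mpr ⟨m, mem_support_iff.mpr h, rfl⟩⟩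

/-- a submodule closed under components is spanned by its homogeneous elements -/
theorem span_homog (U : Submodule K (Finset V → MvPolynomial V K))
    (hU : ∀ f ∈ U, ∀ μ, comp μ f ∈ U) :
    Submodule.span K {f | f ∈ U ∧ ∃ μ, f ∈ Sup K {μ}} = U := by
  apply le_antisymm
  · rw [Submodule.span_le]
    rintro f ⟨hf, _⟩
    exact hf
  · intro f hf
    obtain ⟨D, hD⟩ := eq_sum_comp f
    rw [hD]
    exact Submodule.sum_mem _ fun μ _ => Submodule.subset_span ⟨hU f hf μ, μ, comp_mem_Sup μ f⟩

theorem homogeneousComponent_X_mul {V : Type*} (a : V) (e : ℕ)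
    (f : MvPolynomial V K) :
    homogeneousComponent (e + 1) (X a * f) = X a * homogeneousComponent e f := by
  classical
  ext m
  rw [coeff_homogeneousComponent, coeff_X_mul', coeff_X_mul', coeff_homogeneousComponent]
  by_cases hv : a ∈ m.support
  · rw [if_pos hv, if_pos hv]
    have h2 : m.degree = (m - Finsupp.single a 1).degree + 1 := by
      have : m - Finsupp.single a 1 + Finsupp.single a 1 = m := by
        rw [tsub_add_cancel_of_le]
        rw [Finsupp.single_le_iff]
        exact Nat.one_le_iff_ne_zero.mpr (Finsupp.mem_support_iff.mp hv)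
      conv_lhs => rw [← this]
      rw [map_add, Finsupp.degree_single]
    rw [h2]
    simp only [Nat.add_right_cancel_iff]
  · rw [if_neg hv, if_neg hv]
    simp


attribute [local instance] MvPolynomial.gradedAlgebra in
theorem homogeneousComponent_mem_span {V : Type*} {s : Set (MvPolynomial V K)}
    (hs : ∀ x ∈ s, ∃ d, x.IsHomogeneous d) (e : ℕ) {f : MvPolynomial V K}
    (hf : f ∈ Ideal.span s) : homogeneousComponent e f ∈ Ideal.span s := by
  classical
  have hI : (Ideal.span s).IsHomogeneous (homogeneousSubmodule V K) := by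
    refine Ideal.homogeneous_span _ _ ?_
    intro x hx
    obtain ⟨d, hd⟩ := hs x hx
    exact ⟨d, hd⟩
  exact homogeneousComponent_mem_of_mem hI hf e

theorem koszulD_bproj {J : Ideal (MvPolynomial V K)}
    (hJ : ∀ e, ∀ f ∈ J, homogeneousComponent e f ∈ J) (i j : ℕ)
    {z : Finset V → MvPolynomial V K} (hz : koszulD K _ z ∈ InI J) :
    koszulD K _ (fun A : Finset V => if A.card = i ∧ i ≤ j then
      homogeneousComponent (j - i) (z A) else 0) ∈ InI J := by
  set p : Finset V → MvPolynomial V K := fun A =>
    if A.card = i ∧ i ≤ j then homogeneousComponent (j - i) (z A) else 0 with hp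
  intro B
  by_cases hB : B.card + 1 = i ∧ i ≤ j
  · have h2 : koszulD K _ p B = homogeneousComponent (j - i + 1) (koszulD K _ z B) := by
      rw [koszulD_apply, koszulD_apply, map_sum]
      refine Finset.sum_congr rfl ?_
      intro a ha
      simp only [mem_sdiff, mem_univ, true_and] at ha
      rw [map_zsmul, smul_eq_mul, smul_eq_mul, homogeneousComponent_X_mul]
      congr 2
      rw [hp]
      simp only
      rw [if_pos]
      rw [Finset.card_insert_of_notMem ha]
      exact hB
    rw [h2]
    exact hJ _ _ (hz B)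
  · have h2 : koszulD K _ p B = 0 := by
      rw [koszulD_apply]
      apply Finset.sum_eq_zero
      intro a ha
      simp only [mem_sdiff, mem_univ, true_and] at ha
      have h3 : p (insert a B) = 0 := by
        rw [hp]
        simp only
        rw [if_neg]
        rw [Finset.card_insert_of_notMem ha]
        exact hB
      rw [h3]
      simp
    rw [h2]
    exact Submodule.zero_mem _

section quotient

variable (J : Ideal (MvPolynomial V K))

/-- reduction of chains modulo `J` -/
noncomputable def piJ : (Finset V → MvPolynomial V K) →ₗ[K] (Finset V → MvPolynomial V K ⧸ J) :=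
  (kmap (Submodule.mkQ J)).restrictScalars K

/-- reduction of the boundary modulo `J` -/
noncomputable def TJ : (Finset V → MvPolynomial V K) →ₗ[K] (Finset V → MvPolynomial V K ⧸ J) :=
  (piJ J) ∘ₗ ((koszulD K (MvPolynomial V K)).restrictScalars K)

theorem piJ_eq_zero {f : Finset V → MvPolynomial V K} : piJ J f = 0 ↔ f ∈ InI J :=
  (mem_InI_iff_kmap J).symm

theorem TJ_eq_zero {f : Finset V → MvPolynomial V K} : TJ J f = 0 ↔ koszulD K _ f ∈ InI J :=
  piJ_eq_zero J

theorem TJ_eq (f : Finset V → MvPolynomial V K) :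
    TJ J f = koszulD K (MvPolynomial V K ⧸ J) (piJ J f) :=
  kmap_koszulD (Submodule.mkQ J) f

/-- standard monomials are linearly independent modulo `J` and homogeneous normal forms exist -/
structure NF (nb : V → V → Prop) : Prop where
  indep : ∀ f ∈ J, (∀ m, coeff m f ≠ 0 → ¬ Bad nb m) → f = 0
  exist : ∀ (e : ℕ) (p : MvPolynomial V K), (∀ m, coeff m p ≠ 0 → m.degree = e) →
    ∃ q, (∀ m, coeff m q ≠ 0 → m.degree = e ∧ ¬ Bad nb m) ∧ p - q ∈ J

variable {J} {nb : V → V → Prop} (h : NF J nb)

theorem piJ_mem_koszulPiece {i j : ℕ} {f : Finset V → MvPolynomial V K} (hf : f ∈ Wij K V i j) :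
    piJ J f ∈ koszulPiece J i j := by
  unfold koszulPiece
  rw [Submodule.mem_pi]
  intro A _
  have happ : piJ J f A = Submodule.mkQ J (f A) := rfl
  rw [happ]
  split_ifs with hc
  · unfold gradedPiece
    refine Submodule.mem_map.mpr ⟨f A, ?_, rfl⟩
    rw [mem_homogeneousSubmodule]
    intro m hm
    have h1 : A.card = i ∧ m.degree + A.card = j := hf A m hm
    rw [weight_one_eq]
    omega
  · have h0 : f A = 0 := by
      ext m
      by_contra hne
      have := hf A m hne
      exact hc ⟨this.1, by omega⟩
    rw [h0, map_zero]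
    exact Submodule.zero_mem _

include h

theorem map_piJ_Nij (i j : ℕ) : (Nij K nb i j).map (piJ J) = koszulPiece J i j := by
  apply le_antisymm
  · rintro _ ⟨f, hf, rfl⟩
    exact piJ_mem_koszulPiece (Nij_le_Wij nb i j hf)
  · intro g hg
    unfold koszulPiece at hg
    rw [Submodule.mem_pi] at hg
    have key : ∀ A, ∃ q : MvPolynomial V K,
        (∀ m, coeff m q ≠ 0 → ¬ Bad nb m ∧ A.card = i ∧ m.degree + A.card = j) ∧
        Submodule.mkQ J q = g A := by
      intro A
      have hA := hg A (Set.mem_univ _)
      by_cases hc : A.card = i ∧ i ≤ j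
      · rw [if_pos hc] at hA
        unfold gradedPiece at hA
        obtain ⟨p, hp, hpA⟩ := Submodule.mem_map.mp hA
        change p ∈ homogeneousSubmodule V K (j - i) at hp
        rw [mem_homogeneousSubmodule] at hp
        obtain ⟨q, hq1, hq2⟩ := h.exist (j - i) p (by
          intro m hm
          have := hp hm
          rwa [weight_one_eq] at this)
        refine ⟨q, ?_, ?_⟩
        · intro m hm
          have := hq1 m hm
          refine ⟨this.2, hc.1, ?_⟩
          omega
        · rw [← hpA]
          symm
          change Submodule.mkQ J p = Submodule.mkQ J q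
          rw [← sub_eq_zero, ← map_sub, Submodule.mkQ_apply, Submodule.Quotient.mk_eq_zero]
          exact hq2
      · rw [if_neg hc, Submodule.mem_bot] at hA
        exact ⟨0, by intro m hm; simp at hm, by rw [hA, map_zero]⟩
    choose q hq1 hq2 using key
    refine ⟨q, fun A m hm => hq1 A m hm, ?_⟩
    funext A
    exact hq2 A

theorem piJ_inj {i j : ℕ} {f : Finset V → MvPolynomial V K} (hf : f ∈ Nij K nb i j)
    (h0 : piJ J f = 0) : f = 0 := by
  rw [piJ_eq_zero] at h0
  funext A
  exact h.indep _ (h0 A) fun m hm => (hf A m hm).1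

theorem koszulCycles_eq (i j : ℕ) :
    koszulCycles J i j = (Nij K nb i j ⊓ LinearMap.ker (TJ J) :
      Submodule K (Finset V → MvPolynomial V K)).map (piJ J) := by
  unfold koszulCycles
  rw [← map_piJ_Nij h]
  ext g
  constructor
  · rintro ⟨hg1, ⟨f, hf, rfl⟩⟩
    refine ⟨f, ⟨hf, ?_⟩, rfl⟩
    change TJ J f = 0
    rw [TJ_eq]
    exact hg1
  · rintro ⟨f, ⟨hf1, hf2⟩, rfl⟩
    refine ⟨?_, ⟨f, hf1, rfl⟩⟩
    change koszulD K (MvPolynomial V K ⧸ J) (piJ J f) = 0
    rw [← TJ_eq]
    exact hf2

theorem koszulBoundaries_eq (i j : ℕ) :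
    koszulBoundaries J i j = (Nij K nb (i + 1) j).map (TJ J) := by
  unfold koszulBoundaries
  rw [← map_piJ_Nij h, ← Submodule.map_comp]
  congr 1
  apply LinearMap.ext
  intro f
  exact (TJ_eq J f).symm

theorem koszulBoundaries_le (i j : ℕ) : koszulBoundaries J i j ≤ koszulCycles J i j := by
  rw [koszulBoundaries_eq h]
  rintro _ ⟨f, hf, rfl⟩
  refine ⟨?_, ?_⟩
  · change koszulD K (MvPolynomial V K ⧸ J) (TJ J f) = 0
    rw [TJ_eq, koszulD_koszulD]
  · exact piJ_mem_koszulPiece (koszulD_mem_Wij (Nij_le_Wij nb _ _ hf))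

theorem gradedBetti_eq (i j : ℕ) :
    gradedBetti J i j =
      finrank K (Nij K nb i j ⊓ LinearMap.ker (TJ J) :
        Submodule K (Finset V → MvPolynomial V K)) -
      finrank K ((Nij K nb (i + 1) j).map (TJ J)) := by
  have := finiteDimensional_Nij (K := K) nb i j
  have : FiniteDimensional K (koszulCycles J i j) := by
    rw [koszulCycles_eq h]
    have : FiniteDimensional K (Nij K nb i j ⊓ LinearMap.ker (TJ J) :
        Submodule K (Finset V → MvPolynomial V K)) :=
      Submodule.finiteDimensional_of_le inf_le_left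
    infer_instance
  unfold gradedBetti
  rw [finrank_quot_submoduleOf _ _ (koszulBoundaries_le h i j), koszulCycles_eq h,
    koszulBoundaries_eq h, finrank_map_of_inj]
  rintro f ⟨hf, _⟩ h0
  exact piJ_inj h hf h0

end quotient

end Pool.Agent.BEI
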