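import Pool.Agent.BEI.Normal
import Pool.Agent.BEI.Pieces

/-!
# Equality of the graded Betti numbers of `S/J_G` and `S/in_<(J_G)`
-/

namespace Pool.Agent.BEI

open MvPolynomial Finset Module

set_option linter.unusedSectionVars false

theorem linInd_transfer {K V W1 W2 : Type*} [Field K] [AddCommGroup V] [Module K V]
    [AddCommGroup W1] [Module K W1] [AddCommGroup W2] [Module K W2] {ι : Type*}
    (F Gr : ℕ → Submodule K V) (hmono : Monotone F) (hGF : ∀ ω, Gr ω ≤ F (ω + 1))
    (TI : V →ₗ[K] W1) (TJ : V →ₗ[K] W2)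
    (hP : ∀ ω, ∀ y ∈ Gr ω, ∀ y' ∈ F ω, TJ (y + y') = 0 → TI y = 0)
    (e : ι → V) (w : ι → ℕ) (he : ∀ s, e s ∈ Gr (w s))
    (hli : LinearIndependent K fun s => TI (e s)) : LinearIndependent K fun s => TJ (e s) := by
  classical
  rw [linearIndependent_iff'] at hli ⊢
  intro s c hsum
  by_contra hcon
  push Not at hcon
  obtain ⟨i1, hi1, hci1⟩ := hcon
  obtain ⟨i0, hi0, hmax⟩ := Finset.exists_max_image (s.filter fun i => c i ≠ 0) w
    ⟨i1, by simp [hi1, hci1]⟩
  rw [Finset.mem_filter] at hi0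
  set ω := w i0 with hω
  have hle : ∀ i ∈ s, c i ≠ 0 → w i ≤ ω := fun i hi hci => hmax i (by simp [hi, hci])
  have hyG : ∑ i ∈ s.filter (fun i => w i = ω), c i • e i ∈ Gr ω := by
    refine Submodule.sum_mem _ fun i hi => Submodule.smul_mem _ _ ?_
    rw [Finset.mem_filter] at hi
    rw [← hi.2]
    exact he i
  have hyF : ∑ i ∈ s.filter (fun i => ¬ w i = ω), c i • e i ∈ F ω := by
    refine Submodule.sum_mem _ fun i hi => ?_
    rw [Finset.mem_filter] at hi
    by_cases hci : c i = 0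
    · rw [hci, zero_smul]; exact Submodule.zero_mem _
    · have h2 : w i < ω := lt_of_le_of_ne (hle i hi.1 hci) hi.2
      exact Submodule.smul_mem _ _ (hmono h2 (hGF _ (he i)))
  have h0 : TJ (∑ i ∈ s.filter (fun i => w i = ω), c i • e i +
      ∑ i ∈ s.filter (fun i => ¬ w i = ω), c i • e i) = 0 := by
    rw [Finset.sum_filter_add_sum_filter_not, map_sum, ← hsum]
    exact Finset.sum_congr rfl fun i _ => map_smul _ _ _
  have h1 := hP ω _ hyG _ hyF h0
  rw [map_sum] at h1
  have h2 : ∑ i ∈ s.filter (fun i => w i = ω), c i • TI (e i) = 0 := by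
    rw [← h1]
    exact Finset.sum_congr rfl fun i _ => (map_smul _ _ _).symm
  have := hli (s.filter (fun i => w i = ω)) c h2 i0 (by simp [hi0.1, hω])
  exact hi0.2 this

variable {K : Type*} [Field K] {n : ℕ}

variable (K n) in
/-- chains of exact weight `ω` -/
noncomputable def Gr (ω : ℕ) : Submodule K (Finset (Vars n) → MvPolynomial (Vars n) K) :=
  Sup K {μ | W μ = ω}

theorem Gr_le_F (ω : ℕ) : Gr K n ω ≤ F K n (ω + 1) := by
  intro f hf
  refine Sup_mono ?_ hf
  intro μ hμ
  change W μ = ω at hμ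
  change W μ < ω + 1
  omega

theorem Gr_disj_F (ω : ℕ) (x : Finset (Vars n) → MvPolynomial (Vars n) K)
    (h1 : x ∈ Gr K n ω) (h2 : x ∈ F K n ω) : x = 0 := by
  funext A
  ext m
  by_contra hne
  have h3 : W (m + ind A) = ω := h1 A m hne
  have h4 : W (m + ind A) < ω := h2 A m hne
  omega

theorem F_monotone : Monotone (F K n) := fun _ _ h _ hf => F_mono h hf

theorem binomialEdgeIdeal_homogeneous (G : SimpleGraph (Fin n)) (e : ℕ)
    {f : MvPolynomial (Vars n) K} (hf : f ∈ binomialEdgeIdeal K G) :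
    homogeneousComponent e f ∈ binomialEdgeIdeal K G := by
  refine homogeneousComponent_mem_span ?_ e hf
  rintro _ ⟨i, j, _, _, rfl⟩
  exact ⟨2, ((isHomogeneous_X K (xv i)).mul (isHomogeneous_X K (yv j))).sub
      ((isHomogeneous_X K (xv j)).mul (isHomogeneous_X K (yv i)))⟩

variable {G : SimpleGraph (Fin n)} (hG : IsClosedLabelling G)

theorem NF_edgeI (G : SimpleGraph (Fin n)) : NF (edgeI K (nbG G)) (nbG G) where
  indep := by
    intro f hf hstd
    rw [mem_edgeI _ (nbG_irr G)] at hf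
    ext m
    by_contra hne
    exact hstd m hne (hf m hne)
  exist := by
    classical
    intro e p hp
    refine ⟨∑ m ∈ p.support.filter (fun m => ¬ Bad (nbG G) m), monomial m (coeff m p), ?_, ?_⟩
    · intro m hm
      rw [coeff_sum] at hm
      obtain ⟨m0, hm0, hne⟩ := Finset.exists_ne_zero_of_sum_ne_zero hm
      rw [Finset.mem_filter] at hm0
      rw [coeff_monomial] at hne
      split_ifs at hne with h
      · rw [← h]
        exact ⟨hp m0 hne, hm0.2⟩
      · exact absurd rfl hne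
    · rw [mem_edgeI _ (nbG_irr G)]
      intro m hm
      by_contra hb
      apply hm
      rw [coeff_sub, coeff_sum]
      simp_rw [coeff_monomial]
      rw [Finset.sum_ite_eq']
      by_cases h : coeff m p = 0
      · rw [h]; simp
      · rw [if_pos, sub_self]
        rw [Finset.mem_filter]
        exact ⟨mem_support_iff.mpr h, hb⟩

include hG

theorem NF_bei : NF (binomialEdgeIdeal K G) (nbG G) where
  indep := fun f hf hstd => std_eq_zero hG hf hstd
  exist := by
    intro e p hp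
    exact exists_nf G (fun m => m.degree = e) (fun m m' h h' => by rw [h.degree_eq, h']) p hp

omit hG in
theorem nf_proj {i j ω : ℕ} {u z' : Finset (Vars n) → MvPolynomial (Vars n) K}
    (hu : u ∈ Nij K (nbG G) i j)
    (hz : koszulD K _ z' ∈ InI (binomialEdgeIdeal K G)) (hF : z' - u ∈ F K n ω) :
    ∃ u' ∈ Nij K (nbG G) i j, koszulD K _ u' ∈ InI (binomialEdgeIdeal K G) ∧
      u' - u ∈ F K n ω := by
  classical
  set p : Finset (Vars n) → MvPolynomial (Vars n) K := fun A =>
    if A.card = i ∧ i ≤ j then homogeneousComponent (j - i) (z' A) else 0 with hp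
  -- (1)
  have h1 : koszulD K _ p ∈ InI (binomialEdgeIdeal K G) :=
    koszulD_bproj (fun e f hf => binomialEdgeIdeal_homogeneous G e hf) i j hz
  -- (2)
  have h2 : ∀ A m, coeff m (p A - u A) ≠ 0 →
      W (m + ind A) < ω ∧ A.card = i ∧ m.degree + A.card = j := by
    intro A m hm
    rw [coeff_sub, hp] at hm
    simp only at hm
    by_cases hc : A.card = i ∧ i ≤ j
    · rw [if_pos hc, coeff_homogeneousComponent] at hm
      split_ifs at hm with hd
      · refine ⟨?_, hc.1, by omega⟩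
        apply hF A m
        rw [Pi.sub_apply, coeff_sub]
        exact hm
      · exfalso
        rw [zero_sub, neg_ne_zero] at hm
        have h3 : ¬ Bad (nbG G) m ∧ A.card = i ∧ m.degree + A.card = j := hu A m hm
        omega
    · exfalso
      rw [if_neg hc, coeff_zero, zero_sub, neg_ne_zero] at hm
      have h3 : ¬ Bad (nbG G) m ∧ A.card = i ∧ m.degree + A.card = j := hu A m hm
      exact hc ⟨h3.2.1, by omega⟩
  have h3 : ∀ A, ∃ q, (∀ m, coeff m q ≠ 0 →
      (W (m + ind A) < ω ∧ A.card = i ∧ m.degree + A.card = j) ∧ ¬ Bad (nbG G) m) ∧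
      (p A - u A) - q ∈ binomialEdgeIdeal K G := by
    intro A
    refine exists_nf G (fun m => W (m + ind A) < ω ∧ A.card = i ∧ m.degree + A.card = j)
      ?_ (p A - u A) (h2 A)
    rintro m m' hred ⟨ha, hb, hc⟩
    refine ⟨?_, hb, ?_⟩
    · have := hred.W_lt
      rw [map_add] at ha ⊢
      omega
    · rw [hred.degree_eq]; exact hc
  choose s hs1 hs2 using h3
  have hsN : s ∈ Nij K (nbG G) i j := fun A m hm => ⟨(hs1 A m hm).2, (hs1 A m hm).1.2⟩
  have hsF : s ∈ F K n ω := fun A m hm => (hs1 A m hm).1.1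
  have hrs : p - u - s ∈ InI (binomialEdgeIdeal K G) := hs2
  refine ⟨u + s, Submodule.add_mem _ hu hsN, ?_, ?_⟩
  · have h4 : u + s = p - (p - u - s) := by abel
    rw [h4, map_sub]
    exact Submodule.sub_mem _ h1 (InI.koszulD hrs)
  · rw [add_sub_cancel_left]
    exact hsF

omit hG in
theorem card_le_finrank_of_lift {b : Type*} {𝒦 : Type*} [AddCommGroup 𝒦] [Module K 𝒦]
    (U : Submodule K 𝒦) [FiniteDimensional K U] [Fintype b] (f : b → 𝒦) (hf : ∀ s, f s ∈ U)
    (hli : LinearIndependent K f) : Fintype.card b ≤ finrank K U := by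
  have h1 : LinearIndependent K (fun s => (⟨f s, hf s⟩ : U)) := by
    apply LinearIndependent.of_comp U.subtype
    exact hli
  exact h1.fintype_card_le_finrank

omit hG in
theorem exists_basis_of_span {𝒦 : Type*} [AddCommGroup 𝒦] [Module K 𝒦]
    (U : Submodule K 𝒦) [FiniteDimensional K U] (H : Set 𝒦) (hH : Submodule.span K H = U) :
    ∃ b : Set 𝒦, ∃ _ : Fintype b, b ⊆ H ∧ Fintype.card b = finrank K U ∧
      LinearIndependent K (Subtype.val : b → 𝒦) := by
  obtain ⟨b, hbH, hspan, hli⟩ := exists_linearIndependent K H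
  have hbU : ∀ x ∈ b, x ∈ U := by
    intro x hx
    rw [← hH]
    exact Submodule.subset_span (hbH hx)
  have h1 : LinearIndependent K (fun s : b => (⟨s.1, hbU s.1 s.2⟩ : U)) := by
    apply LinearIndependent.of_comp U.subtype
    exact hli
  have hfin : Finite b := h1.finite
  let _ : Fintype b := Fintype.ofFinite b
  refine ⟨b, inferInstance, hbH, ?_, hli⟩
  have h2 := finrank_span_set_eq_card hli
  rw [hspan, hH] at h2
  rw [h2, Set.toFinset_card]

theorem finrank_Z_le (i j : ℕ) :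
    finrank K (Nij K (nbG G) i j ⊓ LinearMap.ker (TJ (edgeI K (nbG G))) :
      Submodule K (Finset (Vars n) → MvPolynomial (Vars n) K)) ≤
    finrank K (Nij K (nbG G) i j ⊓ LinearMap.ker (TJ (binomialEdgeIdeal K G)) :
      Submodule K (Finset (Vars n) → MvPolynomial (Vars n) K)) := by
  classical
  have := finiteDimensional_Nij (K := K) (nbG G) i j
  have : FiniteDimensional K (Nij K (nbG G) i j ⊓ LinearMap.ker (TJ (edgeI K (nbG G))) :
        Submodule K (Finset (Vars n) → MvPolynomial (Vars n) K)) :=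
      Submodule.finiteDimensional_of_le inf_le_left
  have : FiniteDimensional K (Nij K (nbG G) i j ⊓ LinearMap.ker (TJ (binomialEdgeIdeal K G)) :
        Submodule K (Finset (Vars n) → MvPolynomial (Vars n) K)) :=
      Submodule.finiteDimensional_of_le inf_le_left
  have hclosed : ∀ f ∈ (Nij K (nbG G) i j ⊓ LinearMap.ker (TJ (edgeI K (nbG G))) :
      Submodule K (Finset (Vars n) → MvPolynomial (Vars n) K)), ∀ μ, comp μ f ∈
      (Nij K (nbG G) i j ⊓ LinearMap.ker (TJ (edgeI K (nbG G))) :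
      Submodule K (Finset (Vars n) → MvPolynomial (Vars n) K)) := by
    rintro f ⟨hf1, hf2⟩ μ
    refine ⟨comp_mem_Cond μ hf1, ?_⟩
    have hf2' : koszulD K _ f ∈ InI (edgeI K (nbG G)) := (TJ_eq_zero _).mp hf2
    change TJ (edgeI K (nbG G)) (comp μ f) = 0
    rw [TJ_eq_zero, koszulD_comp, mem_InI_edgeI (nbG_irr G)]
    rw [mem_InI_edgeI (nbG_irr G)] at hf2'
    intro A m hm
    rw [coeff_comp] at hm
    split_ifs at hm with h
    · exact hf2' A m hm
    · exact absurd rfl hm
  obtain ⟨b, hb, hbH, hcard, hli⟩ := exists_basis_of_span _ _ (span_homog _ hclosed)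
  have hlift : ∀ s : b, ∃ μ : Vars n →₀ ℕ, ∃ u', s.1 ∈ Sup K {μ} ∧
      u' ∈ (Nij K (nbG G) i j ⊓ LinearMap.ker (TJ (binomialEdgeIdeal K G)) :
        Submodule K (Finset (Vars n) → MvPolynomial (Vars n) K)) ∧ u' - s.1 ∈ F K n (W μ) := by
    intro s
    obtain ⟨⟨hs1, hs2⟩, μ, hμ⟩ := hbH s.2
    obtain ⟨z', hz1, hz2⟩ := lift_all G hG _ μ rfl s.1 hμ ((TJ_eq_zero _).mp hs2)
    obtain ⟨u', hu1, hu2, hu3⟩ := nf_proj hs1 hz2 hz1
    exact ⟨μ, u', hμ, ⟨hu1, (TJ_eq_zero _).mpr hu2⟩, hu3⟩
  choose μ u' h1 h2 h3 using hlift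
  rw [← hcard]
  refine card_le_finrank_of_lift _ u' h2 ?_
  refine linInd_of_lead (F K n) (Gr K n) F_monotone Gr_le_F Gr_disj_F Subtype.val u'
    (fun s => W (μ s)) ?_ h3 hli
  intro s
  refine Sup_mono ?_ (h1 s)
  intro ν hν
  rw [Set.mem_singleton_iff] at hν
  rw [hν]
  rfl

theorem lead_mem (ω : ℕ) (y : Finset (Vars n) → MvPolynomial (Vars n) K) (hy : y ∈ Gr K n ω)
    (y' : Finset (Vars n) → MvPolynomial (Vars n) K) (hy' : y' ∈ F K n ω)
    (h0 : TJ (binomialEdgeIdeal K G) (y + y') = 0) : TJ (edgeI K (nbG G)) y = 0 := by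
  classical
  rw [TJ_eq_zero, map_add] at h0
  rw [TJ_eq_zero, mem_InI_edgeI (nbG_irr G)]
  intro A m0 hm0
  by_contra hb
  set g := koszulD K _ y A with hg
  set h := koszulD K _ y' A with hh
  have hgh : g + h ∈ binomialEdgeIdeal K G := h0 A
  have hgW : ∀ m, coeff m g ≠ 0 → W (m + ind A) = ω := fun m hm => koszulD_mem_Sup hy A m hm
  have hhW : ∀ m, coeff m h ≠ 0 → W (m + ind A) < ω := fun m hm => koszulD_mem_Sup hy' A m hm
  set g1 := ∑ m ∈ g.support.filter (fun m => ¬ Bad (nbG G) m), monomial m (coeff m g) with hg1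
  set g2 := ∑ m ∈ g.support.filter (fun m => Bad (nbG G) m), monomial m (coeff m g) with hg2
  have hgsum : g = g1 + g2 := by
    rw [hg1, hg2, add_comm, Finset.sum_filter_add_sum_filter_not]
    exact g.as_sum
  have hg1c : ∀ m, coeff m g1 ≠ 0 → coeff m g ≠ 0 ∧ ¬ Bad (nbG G) m := by
    intro m hm
    rw [hg1, coeff_sum] at hm
    obtain ⟨m1, hm1, hne⟩ := Finset.exists_ne_zero_of_sum_ne_zero hm
    rw [Finset.mem_filter] at hm1
    rw [coeff_monomial] at hne
    split_ifs at hne with h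
    · rw [← h]; exact ⟨hne, hm1.2⟩
    · exact absurd rfl hne
  have hg2c : ∀ m, coeff m g2 ≠ 0 → coeff m g ≠ 0 ∧ Bad (nbG G) m := by
    intro m hm
    rw [hg2, coeff_sum] at hm
    obtain ⟨m1, hm1, hne⟩ := Finset.exists_ne_zero_of_sum_ne_zero hm
    rw [Finset.mem_filter] at hm1
    rw [coeff_monomial] at hne
    split_ifs at hne with h
    · rw [← h]; exact ⟨hne, hm1.2⟩
    · exact absurd rfl hne
  obtain ⟨q1, hq1, hq1'⟩ := exists_nf_bad G (fun m => W (m + ind A) = ω)
    (fun m => W (m + ind A) < ω)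
    (fun m m' hred hm => by
      have := hred.W_lt
      rw [map_add] at hm ⊢
      omega)
    (fun m m' hred hm => by
      have := hred.W_lt
      rw [map_add] at hm ⊢
      omega) g2 (fun m hm => ⟨hgW m (hg2c m hm).1, (hg2c m hm).2⟩)
  obtain ⟨q2, hq2, hq2'⟩ := exists_nf G (fun m => W (m + ind A) < ω)
    (fun m m' hred hm => by
      have := hred.W_lt
      rw [map_add] at hm ⊢
      omega) h hhW
  have hJ : g1 + q1 + q2 ∈ binomialEdgeIdeal K G := by
    have h5 := Ideal.sub_mem _ (Ideal.sub_mem _ hgh hq1') hq2'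
    have h6 : g + h - (g2 - q1) - (h - q2) = g1 + q1 + q2 := by rw [hgsum]; ring
    rwa [h6] at h5
  have hzero : g1 + q1 + q2 = 0 := by
    refine std_eq_zero hG hJ ?_
    intro m hm
    by_cases ha : coeff m g1 = 0
    · by_cases hb : coeff m q1 = 0
      · rw [coeff_add, coeff_add, ha, hb, zero_add, zero_add] at hm
        exact (hq2 m hm).2
      · exact (hq1 m hb).2
    · exact (hg1c m ha).2
  have hc1 : coeff m0 q1 = 0 := by
    by_contra hne
    have h7 := (hq1 m0 hne).1
    have h8 := hgW m0 hm0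
    omega
  have hc2 : coeff m0 q2 = 0 := by
    by_contra hne
    have h7 := (hq2 m0 hne).1
    have h8 := hgW m0 hm0
    omega
  have hc3 : coeff m0 g2 = 0 := by
    by_contra hne
    exact hb (hg2c m0 hne).2
  have h9 : coeff m0 (g1 + q1 + q2) = 0 := by rw [hzero, coeff_zero]
  rw [coeff_add, coeff_add, hc1, hc2, add_zero, add_zero] at h9
  apply hm0
  rw [hgsum, coeff_add, h9, hc3, add_zero]

theorem finrank_B_le (i j : ℕ) :
    finrank K ((Nij K (nbG G) i j).map (TJ (edgeI K (nbG G)))) ≤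
    finrank K ((Nij K (nbG G) i j).map (TJ (binomialEdgeIdeal K G))) := by
  classical
  have := finiteDimensional_Nij (K := K) (nbG G) i j
  have hspan : Submodule.span K (TJ (edgeI K (nbG G)) ''
      {f | f ∈ Nij K (nbG G) i j ∧ ∃ μ, f ∈ Sup K {μ}}) =
      (Nij K (nbG G) i j).map (TJ (edgeI K (nbG G))) := by
    rw [← Submodule.map_span, span_homog _ fun f hf μ => comp_mem_Cond μ hf]
  obtain ⟨b, hb, hbH, hcard, hli⟩ := exists_basis_of_span _ _ hspan
  have hpre : ∀ s : b, ∃ e, ∃ μ : Vars n →₀ ℕ, e ∈ Nij K (nbG G) i j ∧ e ∈ Sup K {μ} ∧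
      TJ (edgeI K (nbG G)) e = s.1 := by
    intro s
    obtain ⟨e, ⟨he, μ, hμ⟩, hes⟩ := hbH s.2
    exact ⟨e, μ, he, hμ, hes⟩
  choose e μ he hμ hes using hpre
  rw [← hcard]
  refine card_le_finrank_of_lift _ (fun s => TJ (binomialEdgeIdeal K G) (e s))
    (fun s => ⟨e s, he s, rfl⟩) ?_
  refine linInd_transfer (F K n) (Gr K n) F_monotone Gr_le_F (TJ (edgeI K (nbG G)))
    (TJ (binomialEdgeIdeal K G)) (fun ω y hy y' hy' h0 => lead_mem hG ω y hy y' hy' h0)
    e (fun s => W (μ s)) ?_ ?_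
  · intro s
    refine Sup_mono ?_ (hμ s)
    intro ν hν
    rw [Set.mem_singleton_iff] at hν
    rw [hν]
    rfl
  · simp_rw [hes]
    exact hli

/-- equality of the graded Betti numbers of `S/J_G` and of `S/in(J_G)` -/
theorem gradedBetti_edgeI (i j : ℕ) :
    gradedBetti (binomialEdgeIdeal K G) i j = gradedBetti (edgeI K (nbG G)) i j := by
  have hall : ∀ i, finrank K (Nij K (nbG G) i j ⊓ LinearMap.ker (TJ (edgeI K (nbG G))) :
      Submodule K (Finset (Vars n) → MvPolynomial (Vars n) K)) =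
    finrank K (Nij K (nbG G) i j ⊓ LinearMap.ker (TJ (binomialEdgeIdeal K G)) :
      Submodule K (Finset (Vars n) → MvPolynomial (Vars n) K)) ∧
    finrank K ((Nij K (nbG G) i j).map (TJ (edgeI K (nbG G)))) =
    finrank K ((Nij K (nbG G) i j).map (TJ (binomialEdgeIdeal K G))) := by
    intro i
    have := finiteDimensional_Nij (K := K) (nbG G) i j
    have h1 := finrank_map_add_finrank_inf_ker (TJ (edgeI K (nbG G))) (Nij K (nbG G) i j)
    have h2 := finrank_map_add_finrank_inf_ker (TJ (binomialEdgeIdeal K G)) (Nij K (nbG G) i j)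
    have h3 := finrank_Z_le (K := K) hG i j
    have h4 := finrank_B_le (K := K) hG i j
    omega
  rw [gradedBetti_eq (NF_bei hG), gradedBetti_eq (NF_edgeI G), (hall i).1, (hall (i + 1)).2]

theorem gradedBetti_initialIdeal (i j : ℕ) :
    gradedBetti (binomialEdgeIdeal K G) i j =
      gradedBetti (initialIdeal (MonomialOrder.lex : MonomialOrder (Vars n))
        (binomialEdgeIdeal K G)) i j := by
  rw [initialIdeal_eq hG, gradedBetti_edgeI hG]

end Pool.Agent.BEI
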