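import Pool.Agent.BEI.Weights

/-!
# Leading forms of the Eagon–Northcott cycles
-/

namespace Pool.Agent.BEI

open MvPolynomial Finset

set_option linter.unusedSectionVars false

variable {K : Type*} [Field K] {n : ℕ}

theorem Om_bound (Q : List (Fin n)) (p : ℕ) {ω : ℕ}
    {f : Finset (Vars n) → MvPolynomial (Vars n) K} (hf : f ∈ F K n ω) :
    Om K _ Q p f ∈ F K n (ω + wls Q) := by
  induction Q generalizing p with
  | nil => cases p with
    | zero => simpa using hf
    | succ p => simp
  | cons q Q ih =>
    cases p with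
    | zero =>
      rw [Om_cons_zero]
      exact wedge_mem_F (by rw [wt_xv, wls_cons]; omega) (ih 0)
    | succ p =>
      rw [Om_cons_succ]
      refine Submodule.add_mem _ (wedge_mem_F ?_ (ih (p + 1))) (wedge_mem_F ?_ (ih p))
      · rw [wt_xv, wls_cons]; omega
      · rw [wt_yv, wls_cons]; have := Nat.zero_le (2 ^ (n - q.val)); omega

theorem Th_bound (Q : List (Fin n)) (p : ℕ) {ω : ℕ}
    {f : Finset (Vars n) → MvPolynomial (Vars n) K} (hf : f ∈ F K n ω) :
    Th K _ Q p f ∈ F K n (ω + wls Q) := by
  induction Q generalizing p with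
  | nil => simp
  | cons q Q ih =>
    cases p with
    | zero => rw [Th_zero]; exact Submodule.zero_mem _
    | succ p =>
      rw [Th_cons_succ]
      refine Submodule.sub_mem _ (Submodule.add_mem _ (Submodule.neg_mem _
        (wedge_mem_F ?_ (ih (p + 1)))) (smul_mem_F ?_ (Om_bound Q p hf))) (wedge_mem_F ?_ (ih p))
      · rw [wt_xv, wls_cons]; omega
      · rw [wt_yv, wls_cons]; have := Nat.zero_le (2 ^ (n - q.val)); omega
      · rw [wt_yv, wls_cons]; have := Nat.zero_le (2 ^ (n - q.val)); omega

theorem Om_big (B : List (Fin n)) (p : ℕ) (h : B.length < p)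
    (f : Finset (Vars n) → MvPolynomial (Vars n) K) : Om K _ B p f = 0 := by
  induction B generalizing p with
  | nil =>
    obtain ⟨p, rfl⟩ : ∃ q, p = q + 1 := ⟨p - 1, by simp at h; omega⟩
    rfl
  | cons q B ih =>
    rw [List.length_cons] at h
    obtain ⟨p, rfl⟩ : ∃ q, p = q + 1 := ⟨p - 1, by omega⟩
    rw [Om_cons_succ, ih _ (by omega), ih _ (by omega)]
    simp

theorem Th_big (B : List (Fin n)) (p : ℕ) (h : B.length < p)
    (f : Finset (Vars n) → MvPolynomial (Vars n) K) : Th K _ B p f = 0 := by
  induction B generalizing p with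
  | nil => simp
  | cons q B ih =>
    rw [List.length_cons] at h
    obtain ⟨p, rfl⟩ : ∃ q, p = q + 1 := ⟨p - 1, by omega⟩
    rw [Th_cons_succ, ih _ (by omega), ih _ (by omega), Om_big _ _ (by omega)]
    simp

theorem Om_top (B : List (Fin n)) (f : Finset (Vars n) → MvPolynomial (Vars n) K) :
    Om K _ B B.length f = wl K _ (B.map yv) f := by
  induction B with
  | nil => simp
  | cons q B ih =>
    rw [List.length_cons, Om_cons_succ, Om_big _ _ (by omega), ih]
    simp

theorem Th_top (B : List (Fin n)) (f : Finset (Vars n) → MvPolynomial (Vars n) K) :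
    Th K _ B B.length f = dl K _ (B.map yv) f := by
  induction B with
  | nil => simp
  | cons q B ih =>
    rw [List.length_cons, Th_cons_succ, Th_big _ _ (by omega), ih, Om_top]
    simp

theorem Om_lead (A B : List (Fin n)) (h : (A ++ B).Pairwise (· < ·)) {ω : ℕ}
    {f : Finset (Vars n) → MvPolynomial (Vars n) K} (hf : f ∈ F K n (ω + 1)) :
    Om K _ (A ++ B) B.length f - wl K _ (A.map xv) (wl K _ (B.map yv) f) ∈
      F K n (ω + wls A) := by
  induction A with
  | nil =>
    rw [List.nil_append, Om_top, List.map_nil, wl_nil, sub_self]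
    exact Submodule.zero_mem _
  | cons q A ih =>
    have hq := wls_lt q (A ++ B) h
    have h' : (A ++ B).Pairwise (· < ·) := by
      rw [List.cons_append, List.pairwise_cons] at h
      exact h.2
    have ih' := ih h'
    rw [List.cons_append, List.map_cons, wl_cons]
    rcases hB : B.length with _ | p
    · rw [hB] at ih'
      rw [Om_cons_zero, ← map_sub]
      exact wedge_mem_F (by rw [wt_xv, wls_cons]; omega) ih'
    · rw [hB] at ih'
      rw [Om_cons_succ, add_sub_right_comm, ← map_sub]
      refine Submodule.add_mem _ (wedge_mem_F (by rw [wt_xv, wls_cons]; omega) ih') ?_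
      refine wedge_mem_F ?_ (Om_bound (A ++ B) p hf)
      rw [wt_yv, wls_cons]
      omega

theorem Th_lead (A B : List (Fin n)) (h : (A ++ B).Pairwise (· < ·)) {ω : ℕ}
    {f : Finset (Vars n) → MvPolynomial (Vars n) K} (hf : f ∈ F K n (ω + 1)) :
    Th K _ (A ++ B) B.length f -
      ((-1 : ℤ) ^ A.length) • wl K _ (A.map xv) (dl K _ (B.map yv) f) ∈
      F K n (ω + wls A) := by
  induction A with
  | nil =>
    rw [List.nil_append, Th_top, List.map_nil, wl_nil, List.length_nil, pow_zero, one_smul,
      sub_self]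
    exact Submodule.zero_mem _
  | cons q A ih =>
    have hq := wls_lt q (A ++ B) h
    have h' : (A ++ B).Pairwise (· < ·) := by
      rw [List.cons_append, List.pairwise_cons] at h
      exact h.2
    have ih' := ih h'
    rw [List.cons_append, List.map_cons, wl_cons, List.length_cons]
    rcases hB : B.length with _ | p
    · have hB' : B = [] := List.length_eq_zero_iff.mp hB
      subst hB'
      simp [Th_zero]
    · rw [hB] at ih'
      have e : Th K _ (q :: (A ++ B)) (p + 1) f -
          ((-1 : ℤ) ^ (A.length + 1)) • wedge K _ (xv q)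
            (wl K _ (A.map xv) (dl K _ (B.map yv) f)) =
          - wedge K _ (xv q) (Th K _ (A ++ B) (p + 1) f -
            ((-1 : ℤ) ^ A.length) • wl K _ (A.map xv) (dl K _ (B.map yv) f)) +
          ((X (yv q) : MvPolynomial (Vars n) K) • Om K _ (A ++ B) p f -
            wedge K _ (yv q) (Th K _ (A ++ B) p f)) := by
        rw [Th_cons_succ, map_sub, map_zsmul, pow_succ]
        module
      rw [e]
      refine Submodule.add_mem _ (Submodule.neg_mem _
        (wedge_mem_F (by rw [wt_xv, wls_cons]; omega) ih')) (Submodule.sub_mem _ ?_ ?_)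
      · refine smul_mem_F ?_ (Om_bound (A ++ B) p hf)
        rw [wt_yv, wls_cons]
        omega
      · refine wedge_mem_F ?_ (Th_bound (A ++ B) p hf)
        rw [wt_yv, wls_cons]
        omega

theorem wl_xv_mem_F (A : List (Fin n)) {ω : ℕ}
    {f : Finset (Vars n) → MvPolynomial (Vars n) K} (hf : f ∈ F K n ω) :
    wl K _ (A.map xv) f ∈ F K n (ω + wls A) := by
  induction A with
  | nil => simpa using hf
  | cons q A ih =>
    rw [List.map_cons, wl_cons]
    exact wedge_mem_F (by rw [wt_xv, wls_cons]; omega) ih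

theorem wl_yv_mem_F (B : List (Fin n)) {ω : ℕ}
    {f : Finset (Vars n) → MvPolynomial (Vars n) K} (hf : f ∈ F K n ω) :
    wl K _ (B.map yv) f ∈ F K n ω := by
  induction B with
  | nil => simpa using hf
  | cons q B ih =>
    rw [List.map_cons, wl_cons]
    exact wedge_mem_F (by rw [wt_yv]; omega) ih

theorem dl_yv_mem_F (B : List (Fin n)) {ω : ℕ}
    {f : Finset (Vars n) → MvPolynomial (Vars n) K} (hf : f ∈ F K n ω) :
    dl K _ (B.map yv) f ∈ F K n ω := by
  induction B with
  | nil => simp
  | cons q B ih =>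
    rw [List.map_cons, dl_cons]
    exact Submodule.sub_mem _ (smul_mem_F (by rw [wt_yv]; omega) (wl_yv_mem_F B hf))
      (wedge_mem_F (by rw [wt_yv]; omega) ih)

theorem Th_strict (A B : List (Fin n)) (h : (A ++ B).Pairwise (· < ·)) {ω : ℕ}
    {f : Finset (Vars n) → MvPolynomial (Vars n) K} (hf : f ∈ F K n ω) :
    Th K _ (A ++ B) B.length f ∈ F K n (ω + wls A) := by
  cases ω with
  | zero => rw [F_zero hf, map_zero]; exact Submodule.zero_mem _
  | succ ω =>
    have h1 := Th_lead A B h hf
    have h2 : ((-1 : ℤ) ^ A.length) • wl K _ (A.map xv) (dl K _ (B.map yv) f) ∈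
        F K n (ω + 1 + wls A) := zsmul_mem (wl_xv_mem_F A (dl_yv_mem_F B hf)) _
    have h3 := Submodule.add_mem _ (F_mono (by omega : ω + wls A ≤ ω + 1 + wls A) h1) h2
    rwa [sub_add_cancel] at h3

end Pool.Agent.BEI
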