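import Pool.Agent.BEI.Leading

/-!
# Every Koszul cycle modulo the initial ideal lifts to a Koszul cycle modulo `J_G`
-/

namespace Pool.Agent.BEI

open MvPolynomial Finset

set_option linter.unusedSectionVars false

variable {K : Type*} [Field K] {n : ℕ}

theorem xv_inj {i j : Fin n} : xv i = xv j ↔ i = j := by
  unfold xv; simp

theorem yv_inj {i j : Fin n} : yv i = yv j ↔ i = j := by
  unfold yv; simp

theorem xv_ne_yv (i j : Fin n) : xv i ≠ yv j := by
  unfold xv yv; simp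

theorem yv_ne_xv (i j : Fin n) : yv i ≠ xv j := (xv_ne_yv j i).symm

theorem var_cases (v : Vars n) : (∃ i, v = xv i) ∨ (∃ i, v = yv i) := by
  rcases h : ofLex v with i | i
  · left; exact ⟨i, by rw [← toLex_ofLex v, h]; rfl⟩
  · right; exact ⟨i, by rw [← toLex_ofLex v, h]; rfl⟩

/-- adjacency in the bipartite graph of the initial ideal -/
def nbG (G : SimpleGraph (Fin n)) (v v' : Vars n) : Prop :=
  ∃ i j, i < j ∧ G.Adj i j ∧ ((v = xv i ∧ v' = yv j) ∨ (v = yv j ∧ v' = xv i))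

theorem nbG_irr (G : SimpleGraph (Fin n)) (v : Vars n) : ¬ nbG G v v := by
  rintro ⟨i, j, _, _, (⟨h1, h2⟩ | ⟨h1, h2⟩)⟩
  · exact xv_ne_yv i j (h1.symm.trans h2)
  · exact xv_ne_yv i j (h2.symm.trans h1)

theorem nbG_symm (G : SimpleGraph (Fin n)) (v v' : Vars n) (h : nbG G v v') : nbG G v' v := by
  obtain ⟨i, j, hij, hadj, h⟩ := h
  refine ⟨i, j, hij, hadj, ?_⟩
  rcases h with ⟨h1, h2⟩ | ⟨h1, h2⟩
  · right; exact ⟨h2, h1⟩
  · left; exact ⟨h2, h1⟩

theorem nbG_xv {G : SimpleGraph (Fin n)} {i : Fin n} {v : Vars n} :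
    nbG G (xv i) v ↔ ∃ j, i < j ∧ G.Adj i j ∧ v = yv j := by
  constructor
  · rintro ⟨i', j, hij, hadj, (⟨h1, h2⟩ | ⟨h1, h2⟩)⟩
    · rw [xv_inj] at h1; subst h1; exact ⟨j, hij, hadj, h2⟩
    · exact absurd h1 (xv_ne_yv _ _)
  · rintro ⟨j, hij, hadj, rfl⟩
    exact ⟨i, j, hij, hadj, Or.inl ⟨rfl, rfl⟩⟩

theorem nbG_yv {G : SimpleGraph (Fin n)} {j : Fin n} {v : Vars n} :
    nbG G (yv j) v ↔ ∃ i, i < j ∧ G.Adj i j ∧ v = xv i := by
  constructor
  · rintro ⟨i, j', hij, hadj, (⟨h1, h2⟩ | ⟨h1, h2⟩)⟩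
    · exact absurd h1 (yv_ne_xv _ _)
    · rw [yv_inj] at h1; subst h1; exact ⟨i, hij, hadj, h2⟩
  · rintro ⟨i, hij, hadj, rfl⟩
    exact ⟨i, j, hij, hadj, Or.inr ⟨rfl, rfl⟩⟩

theorem bad_iff {G : SimpleGraph (Fin n)} {m : Vars n →₀ ℕ} :
    Bad (nbG G) m ↔ ∃ i j, i < j ∧ G.Adj i j ∧ m (xv i) ≠ 0 ∧ m (yv j) ≠ 0 := by
  constructor
  · rintro ⟨a, b, ⟨i, j, hij, hadj, (⟨rfl, rfl⟩ | ⟨rfl, rfl⟩)⟩, ha, hb⟩
    · exact ⟨i, j, hij, hadj, ha, hb⟩
    · exact ⟨i, j, hij, hadj, hb, ha⟩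
  · rintro ⟨i, j, hij, hadj, ha, hb⟩
    exact ⟨xv i, yv j, ⟨i, j, hij, hadj, Or.inl ⟨rfl, rfl⟩⟩, ha, hb⟩

/-- a binomial of `J_G` -/
theorem fij_mem (G : SimpleGraph (Fin n)) {i j : Fin n} (hij : i < j) (hadj : G.Adj i j) :
    (X (xv i) * X (yv j) - X (xv j) * X (yv i) : MvPolynomial (Vars n) K) ∈
      binomialEdgeIdeal K G :=
  Ideal.subset_span ⟨i, j, hij, hadj, rfl⟩

theorem exists_bad_dec {G : SimpleGraph (Fin n)} {m : Vars n →₀ ℕ} (h : Bad (nbG G) m) :
    ∃ i j m1, i < j ∧ G.Adj i j ∧ m = m1 + Finsupp.single (xv i) 1 + Finsupp.single (yv j) 1 := by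
  obtain ⟨i, j, hij, hadj, hi, hj⟩ := bad_iff.mp h
  refine ⟨i, j, m - Finsupp.single (xv i) 1 - Finsupp.single (yv j) 1, hij, hadj, ?_⟩
  ext v
  simp only [Finsupp.add_apply, Finsupp.tsub_apply, Finsupp.single_apply]
  by_cases h1 : xv i = v
  · have h2 : ¬ yv j = v := fun h => xv_ne_yv i j (h1.trans h.symm)
    rw [if_pos h1, if_neg h2]
    subst h1; omega
  · by_cases h2 : yv j = v
    · rw [if_neg h1, if_pos h2]
      subst h2; omega
    · rw [if_neg h1, if_neg h2]; omega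

/-- one reduction step modulo `J_G`, on a bad monomial -/
theorem monomial_reduce {G : SimpleGraph (Fin n)} {i j : Fin n} (hij : i < j) (hadj : G.Adj i j)
    (m1 : Vars n →₀ ℕ) (c : K) :
    monomial (m1 + Finsupp.single (xv i) 1 + Finsupp.single (yv j) 1) c -
      monomial (m1 + Finsupp.single (xv j) 1 + Finsupp.single (yv i) 1) c ∈
      binomialEdgeIdeal K G := by
  have : monomial (m1 + Finsupp.single (xv i) 1 + Finsupp.single (yv j) 1) c -
      monomial (m1 + Finsupp.single (xv j) 1 + Finsupp.single (yv i) 1) c =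
      monomial m1 c * (X (xv i) * X (yv j) - X (xv j) * X (yv i)) := by
    rw [mul_sub]
    simp only [X, monomial_mul, mul_one]
    rw [add_assoc, add_assoc]
  rw [this]
  exact Ideal.mul_mem_left _ _ (fij_mem G hij hadj)

theorem W_reduce {i j : Fin n} (hij : i < j) (m1 : Vars n →₀ ℕ) :
    W (m1 + Finsupp.single (xv j) 1 + Finsupp.single (yv i) 1) <
      W (m1 + Finsupp.single (xv i) 1 + Finsupp.single (yv j) 1) := by
  simp only [map_add, W_single, wt_xv, wt_yv]
  have : 2 ^ (n - j.val) < 2 ^ (n - i.val) := by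
    apply Nat.pow_lt_pow_right (by norm_num)
    have h1 := j.isLt
    have h2 : i.val < j.val := hij
    omega
  omega

/-- elements of the initial ideal lift to `J_G` -/
theorem lift_InI (G : SimpleGraph (Fin n)) (μ : Vars n →₀ ℕ)
    (f : Finset (Vars n) → MvPolynomial (Vars n) K)
    (hf : f ∈ Sup K {μ}) (hI : f ∈ InI (edgeI K (nbG G))) :
    ∃ f', f' ∈ InI (binomialEdgeIdeal K G) ∧ f' - f ∈ F K n (W μ) := by
  rw [mem_InI_edgeI (nbG_irr G)] at hI
  have key : ∀ A, ∃ p ∈ binomialEdgeIdeal K G,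
      ∀ m, coeff m (p - f A) ≠ 0 → W (m + ind A) < W μ := by
    intro A
    by_cases h0 : f A = 0
    · exact ⟨0, Submodule.zero_mem _, by intro m hm; rw [h0] at hm; simp at hm⟩
    · obtain ⟨m0, hm0⟩ := ne_zero_iff.mp h0
      have hfA : f A = monomial m0 (coeff m0 (f A)) := by
        ext m
        rw [coeff_monomial]
        split_ifs with h
        · rw [h]
        · by_contra hne
          have h1 := hf A m hne
          have h2 := hf A m0 hm0
          rw [Set.mem_singleton_iff] at h1 h2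
          exact h (add_right_cancel (h2.trans h1.symm))
      obtain ⟨i, j, m1, hij, hadj, hm1⟩ := exists_bad_dec (hI A m0 hm0)
      refine ⟨_, monomial_reduce hij hadj m1 (coeff m0 (f A)), ?_⟩
      intro m hm
      rw [← hm1, ← hfA, sub_right_comm, sub_self, zero_sub, coeff_neg, coeff_monomial] at hm
      split_ifs at hm with h
      · rw [← h]
        have h2 := hf A m0 hm0
        rw [Set.mem_singleton_iff] at h2
        rw [← h2, hm1, map_add W _ (ind A), map_add W _ (ind A)]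
        have := W_reduce hij m1
        omega
      · simp at hm
  choose f' hf' hf'' using key
  exact ⟨f', hf', fun A m hm => hf'' A m hm⟩

theorem relOn_quot (G : SimpleGraph (Fin n)) {q r : Fin n} (hqr : q < r) (hadj : G.Adj q r) :
    RelOn (K := K) (MvPolynomial (Vars n) K ⧸ binomialEdgeIdeal K G) q r := by
  intro m
  obtain ⟨p, rfl⟩ := Submodule.Quotient.mk_surjective _ m
  rw [← sub_eq_zero, ← Submodule.Quotient.mk_smul, ← Submodule.Quotient.mk_smul,
    ← Submodule.Quotient.mk_smul, ← Submodule.Quotient.mk_smul, ← Submodule.Quotient.mk_sub,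
    Submodule.Quotient.mk_eq_zero, smul_smul, smul_smul, ← sub_smul]
  exact Ideal.mul_mem_right _ _ (fij_mem G hqr hadj)

/-- wedge with an Eagon–Northcott cycle preserves cycles modulo `J_G` -/
theorem Th_cycle (G : SimpleGraph (Fin n)) (Q : List (Fin n))
    (hQ : Q.Pairwise fun q r => q < r ∧ G.Adj q r) (p : ℕ)
    (f : Finset (Vars n) → MvPolynomial (Vars n) K)
    (hf : koszulD K _ f ∈ InI (binomialEdgeIdeal K G)) :
    koszulD K _ (Th K _ Q p f) ∈ InI (binomialEdgeIdeal K G) := by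
  rw [mem_InI_iff_kmap] at hf ⊢
  rw [kmap_koszulD] at hf
  rw [kmap_koszulD, kmap_Th, koszulD_Th _ _ Q (hQ.imp fun h => relOn_quot G h.1 h.2), hf]
  simp

/-- a chain which involves a variable that is not adjacent to the support -/
theorem lift_negligible (G : SimpleGraph (Fin n)) (μ : Vars n →₀ ℕ) (v : Vars n)
    (z : Finset (Vars n) → MvPolynomial (Vars n) K)
    (hz : z ∈ Sup K {Finsupp.single v 1 + μ})
    (hd : koszulD K _ z ∈ InI (edgeI K (nbG G)))
    (hv : μ v ≠ 0 ∨ ∀ x, μ x ≠ 0 → ¬ nbG G v x) :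
    ∃ z', z' - z ∈ F K n (W (Finsupp.single v 1 + μ)) ∧
      koszulD K _ z' ∈ InI (binomialEdgeIdeal K G) := by
  obtain ⟨a, b, c, ha, hb, hc, hna, hnb, hnc, hz1, hc0, hz2, hXc, hdc⟩ :=
    exists_step (edgeI K (nbG G)) μ v z hz hd
  have hcI : c ∈ InI (edgeI K (nbG G)) := by
    rw [X_smul_mem_InI_edgeI (nbG_irr G)] at hXc
    rw [mem_InI_edgeI (nbG_irr G)]
    intro A m hm
    have hvA : v ∉ A := by
      intro hvA
      rw [hnc A hvA] at hm
      simp at hm
    have hdeg := hc A m hm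
    rw [Set.mem_singleton_iff] at hdeg
    have hbad := hXc A m hm
    rcases hv with hv | hv
    · obtain ⟨x, y, hxy, hx, hy⟩ := hbad
      refine ⟨x, y, hxy, ?_, ?_⟩
      · by_cases h : x = v
        · subst h
          have := DFunLike.congr_fun hdeg x
          rw [Finsupp.add_apply, ind_apply, if_neg hvA] at this
          omega
        · rwa [Finsupp.add_apply, Finsupp.single_eq_of_ne h, zero_add] at hx
      · by_cases h : y = v
        · subst h
          have := DFunLike.congr_fun hdeg y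
          rw [Finsupp.add_apply, ind_apply, if_neg hvA] at this
          omega
        · rwa [Finsupp.add_apply, Finsupp.single_eq_of_ne h, zero_add] at hy
    · rw [bad_add_iff (nbG_irr G) (nbG_symm G)] at hbad
      rcases hbad with hbad | ⟨q, hq, hmq⟩
      · exact hbad
      · refine absurd hq (hv q ?_)
        rw [← hdeg, Finsupp.add_apply]
        omega
  have hwc : wedge K _ v c ∈ Sup K {Finsupp.single v 1 + μ} := by
    refine wedge_mem_Sup ?_ hc
    intro κ hκ
    rw [Set.mem_singleton_iff] at hκ ⊢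
    rw [hκ, add_comm]
  obtain ⟨f', hf', hf''⟩ := lift_InI G _ _ hwc (InI.wedge hcI v)
  refine ⟨koszulD K _ (wedge K _ v a) + f', ?_, ?_⟩
  · have : koszulD K _ (wedge K _ v a) + f' - z = f' - wedge K _ v c := by
      conv_lhs => rw [hz2]
      abel
    rw [this]
    exact hf''
  · rw [map_add, koszulD_koszulD, zero_add]
    exact InI.koszulD hf'

theorem ls_apply_nodup {V : Type*} [LinearOrder V] [Fintype V] (l : List V) (h : l.Nodup) (v : V) :
    ls l v = if v ∈ l then 1 else 0 := by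
  induction l with
  | nil => simp
  | cons w l ih =>
    rw [List.nodup_cons] at h
    rw [ls_cons, Finsupp.add_apply, ih h.2, Finsupp.single_apply]
    by_cases h1 : w = v
    · subst h1
      simp [h.1]
    · rw [if_neg h1]
      simp [Ne.symm h1]

theorem lift_all (G : SimpleGraph (Fin n)) (hG : IsClosedLabelling G) :
    ∀ (N : ℕ) (μ : Vars n →₀ ℕ), μ.degree = N →
    ∀ z ∈ Sup K {μ}, koszulD K _ z ∈ InI (edgeI K (nbG G)) →
    ∃ z', z' - z ∈ F K n (W μ) ∧ koszulD K _ z' ∈ InI (binomialEdgeIdeal K G) := by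
  intro N
  induction N using Nat.strong_induction_on with
  | _ N ih =>
  intro μ hμ z hz hd
  by_cases h0 : μ = 0
  · subst h0
    refine ⟨z, by simp, ?_⟩
    rw [koszulD_eq_zero_of_Sup_zero hz]
    exact Submodule.zero_mem _
  by_cases hneg : ∃ v, μ v ≠ 0 ∧ (2 ≤ μ v ∨ ∀ x, μ x ≠ 0 → ¬ nbG G v x)
  · obtain ⟨v, hv, hv2⟩ := hneg
    obtain ⟨μ1, hμ1⟩ : ∃ μ1, μ = Finsupp.single v 1 + μ1 := by
      refine ⟨μ - Finsupp.single v 1, ?_⟩
      rw [add_comm, sub_single_add]
      exact Finsupp.mem_support_iff.mpr hv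
    subst hμ1
    refine lift_negligible G _ v z hz hd ?_
    rcases hv2 with h | h
    · left
      rw [Finsupp.add_apply, Finsupp.single_eq_same] at h
      omega
    · right
      intro x hx
      apply h
      rw [Finsupp.add_apply]
      omega
  push Not at hneg
  -- a vertex in the support
  obtain ⟨v0, hv0⟩ : ∃ v, μ v ≠ 0 := by
    by_contra h
    push Not at h
    exact h0 (Finsupp.ext h)
  have hexA : ∃ i, μ (xv i) ≠ 0 := by
    rcases var_cases v0 with ⟨i, rfl⟩ | ⟨j, rfl⟩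
    · exact ⟨i, hv0⟩
    · obtain ⟨x, hx, hnb⟩ := (hneg _ hv0).2
      obtain ⟨i, _, _, rfl⟩ := nbG_yv.mp hnb
      exact ⟨i, hx⟩
  classical
  set SA : Finset (Fin n) := univ.filter (fun i => μ (xv i) ≠ 0) with hSA
  have hSAne : SA.Nonempty := by
    obtain ⟨i, hi⟩ := hexA
    exact ⟨i, by simp [hSA, hi]⟩
  obtain ⟨i, hiSA, himin⟩ : ∃ i ∈ SA, ∀ a ∈ SA, i ≤ a :=
    ⟨SA.min' hSAne, SA.min'_mem hSAne, fun a ha => SA.min'_le a ha⟩
  have hμi : μ (xv i) ≠ 0 := by simpa [hSA] using hiSA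
  set SB : Finset (Fin n) := univ.filter (fun j => μ (yv j) ≠ 0 ∧ i < j ∧ G.Adj i j) with hSB
  have hSBne : SB.Nonempty := by
    obtain ⟨x, hx, hnb⟩ := (hneg _ hμi).2
    obtain ⟨j, hij, hadj, rfl⟩ := nbG_xv.mp hnb
    exact ⟨j, by simp [hSB, hx, hij, hadj]⟩
  obtain ⟨j, hjSB, hjmin⟩ : ∃ j ∈ SB, ∀ b ∈ SB, j ≤ b :=
    ⟨SB.min' hSBne, SB.min'_mem hSBne, fun a ha => SB.min'_le a ha⟩
  have hj3 : μ (yv j) ≠ 0 ∧ i < j ∧ G.Adj i j := by simpa [hSB] using hjSB
  obtain ⟨hμj, hij, hadj⟩ := hj3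
  set S1 : Finset (Fin n) := univ.filter (fun a => μ (xv a) ≠ 0 ∧ a < j ∧ G.Adj a j) with hS1
  have hiS1 : i ∈ S1 := by simp [hS1, hμi, hij, hadj]
  have hminS1 : ∀ a ∈ S1, i ≤ a := by
    intro a ha
    apply himin
    have : μ (xv a) ≠ 0 ∧ a < j ∧ G.Adj a j := by simpa [hS1] using ha
    simp [hSA, this.1]
  set TA : List (Fin n) := (S1.erase i).sort (· ≤ ·) with hTA
  set TB : List (Fin n) := (SB.erase j).sort (· ≤ ·) with hTB
  have memA : ∀ a, a ∈ i :: TA ↔ a ∈ S1 := by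
    intro a
    rw [List.mem_cons, hTA, Finset.mem_sort, Finset.mem_erase]
    constructor
    · rintro (rfl | h)
      · exact hiS1
      · exact h.2
    · intro h
      by_cases h1 : a = i
      · exact Or.inl h1
      · exact Or.inr ⟨h1, h⟩
  have memB : ∀ b, b ∈ j :: TB ↔ b ∈ SB := by
    intro b
    rw [List.mem_cons, hTB, Finset.mem_sort, Finset.mem_erase]
    constructor
    · rintro (rfl | h)
      · exact hjSB
      · exact h.2
    · intro h
      by_cases h1 : b = j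
      · exact Or.inl h1
      · exact Or.inr ⟨h1, h⟩
  have hAB : ((i :: TA) ++ (j :: TB)).Pairwise (· < ·) := by
    rw [List.pairwise_append]
    refine ⟨?_, ?_, ?_⟩
    · rw [List.pairwise_cons]
      refine ⟨?_, ?_⟩
      · intro a ha
        have ha' : a ∈ S1.erase i := by rwa [hTA, Finset.mem_sort] at ha
        rw [Finset.mem_erase] at ha'
        exact lt_of_le_of_ne (hminS1 a ha'.2) (Ne.symm ha'.1)
      · exact (Finset.sortedLT_sort (S1.erase i)).pairwise
    · rw [List.pairwise_cons]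
      refine ⟨?_, ?_⟩
      · intro a ha
        have ha' : a ∈ SB.erase j := by rwa [hTB, Finset.mem_sort] at ha
        rw [Finset.mem_erase] at ha'
        exact lt_of_le_of_ne (hjmin a ha'.2) (Ne.symm ha'.1)
      · exact (Finset.sortedLT_sort (SB.erase j)).pairwise
    · intro a ha b hb
      rw [memA] at ha
      rw [memB] at hb
      have h1 : μ (xv a) ≠ 0 ∧ a < j ∧ G.Adj a j := by simpa [hS1] using ha
      exact lt_of_lt_of_le h1.2.1 (hjmin b hb)
  -- all vertices of the block are adjacent to i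
  have hadji : ∀ q, q ∈ (i :: TA) ++ (j :: TB) → q ≠ i → i < q ∧ G.Adj i q := by
    intro q hq hqi
    rw [List.mem_append, memA, memB] at hq
    rcases hq with hq | hq
    · have h1 : μ (xv q) ≠ 0 ∧ q < j ∧ G.Adj q j := by simpa [hS1] using hq
      have hlt : i < q := lt_of_le_of_ne (hminS1 q hq) (Ne.symm hqi)
      exact ⟨hlt, hG.2 i q j hadj h1.2.2 hij h1.2.1 (Ne.symm hqi)⟩
    · have h1 : μ (yv q) ≠ 0 ∧ i < q ∧ G.Adj i q := by simpa [hSB] using hq
      exact h1.2
  have hclique : ((i :: TA) ++ (j :: TB)).Pairwise (fun q r => q < r ∧ G.Adj q r) := by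
    refine List.Pairwise.imp_of_mem ?_ hAB
    intro q r hq hr hqr
    refine ⟨hqr, ?_⟩
    by_cases hqi : q = i
    · subst hqi
      exact (hadji r hr (ne_of_gt hqr)).2
    · have h1 := hadji q hq hqi
      have h2 := hadji r hr (ne_of_gt (h1.1.trans hqr))
      exact hG.1 i q r h1.2 h2.2 h1.1 h2.1 (ne_of_lt hqr)
  set LA : List (Vars n) := (i :: TA).map xv with hLA
  set LB : List (Vars n) := (j :: TB).map yv with hLB
  have hnodupAB : ((i :: TA) ++ (j :: TB)).Nodup := hAB.imp (fun h => ne_of_lt h)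
  have hndA : LA.Nodup := by
    rw [hLA]
    exact (List.nodup_append.mp hnodupAB).1.map (fun a b h => xv_inj.mp h)
  have hndB : LB.Nodup := by
    rw [hLB]
    exact (List.nodup_append.mp hnodupAB).2.1.map (fun a b h => yv_inj.mp h)
  have hdisj : ∀ v ∈ LA, v ∉ LB := by
    intro v hv hv'
    rw [hLA, List.mem_map] at hv
    rw [hLB, List.mem_map] at hv'
    obtain ⟨a, _, rfl⟩ := hv
    obtain ⟨b, _, hb⟩ := hv'
    exact yv_ne_xv _ _ hb
  have hμle : ∀ v, μ v ≠ 0 → μ v = 1 := by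
    intro v hv
    have := (hneg v hv).1
    omega
  have hLAμ : ∀ v ∈ LA, μ v = 1 := by
    intro v hv
    rw [hLA, List.mem_map] at hv
    obtain ⟨a, ha, rfl⟩ := hv
    rw [memA] at ha
    have h1 : μ (xv a) ≠ 0 ∧ a < j ∧ G.Adj a j := by simpa [hS1] using ha
    exact hμle _ h1.1
  have hLBμ : ∀ v ∈ LB, μ v = 1 := by
    intro v hv
    rw [hLB, List.mem_map] at hv
    obtain ⟨a, ha, rfl⟩ := hv
    rw [memB] at ha
    have h1 : μ (yv a) ≠ 0 ∧ i < a ∧ G.Adj i a := by simpa [hSB] using ha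
    exact hμle _ h1.1
  set μ' : Vars n →₀ ℕ := μ.filter (fun v => ¬ (v ∈ LA ∨ v ∈ LB)) with hμ'
  have hμ'A : ∀ v ∈ LA, μ' v = 0 := by
    intro v hv
    rw [hμ', Finsupp.filter_apply_neg]
    simp [hv]
  have hμ'B : ∀ v ∈ LB, μ' v = 0 := by
    intro v hv
    rw [hμ', Finsupp.filter_apply_neg]
    simp [hv]
  have hsum : μ = ls LA + (ls LB + μ') := by
    ext v
    rw [Finsupp.add_apply, Finsupp.add_apply, ls_apply_nodup LA hndA, ls_apply_nodup LB hndB]
    by_cases h1 : v ∈ LA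
    · rw [if_pos h1, if_neg (hdisj v h1), hμ'A v h1, hLAμ v h1]
      rfl
    · by_cases h2 : v ∈ LB
      · rw [if_neg h1, if_pos h2, hμ'B v h2, hLBμ v h2]
        rfl
      · rw [if_neg h1, if_neg h2, hμ', Finsupp.filter_apply_pos]
        · omega
        · simp [h1, h2]
  have hu : ∀ x, (ls LA + (ls LB + μ')) x ≠ 0 → nbG G (xv i) x → x ∈ LB := by
    intro x hx hnb
    rw [← hsum] at hx
    obtain ⟨b, hib, hadjb, rfl⟩ := nbG_xv.mp hnb
    rw [hLB, List.mem_map]
    refine ⟨b, (memB b).mpr ?_, rfl⟩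
    simp [hSB, hx, hib, hadjb]
  have hw : ∀ x, (ls LA + (ls LB + μ')) x ≠ 0 → nbG G (yv j) x → x ∈ LA := by
    intro x hx hnb
    rw [← hsum] at hx
    obtain ⟨a, haj, hadja, rfl⟩ := nbG_yv.mp hnb
    rw [hLA, List.mem_map]
    refine ⟨a, (memA a).mpr ?_, rfl⟩
    simp [hS1, hx, haj, hadja]
  have hcomplete : ∀ a ∈ LA, ∀ b ∈ LB, nbG G a b := by
    intro a ha b hb
    rw [hLA, List.mem_map] at ha
    rw [hLB, List.mem_map] at hb
    obtain ⟨a, ha, rfl⟩ := ha
    obtain ⟨b, hb, rfl⟩ := hb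
    have h1 := (List.pairwise_append.mp hclique).2.2 a ha b hb
    exact ⟨a, b, h1.1, h1.2, Or.inl ⟨rfl, rfl⟩⟩
  have hz' : z ∈ Sup K {ls LA + (ls LB + μ')} := by rw [← hsum]; exact hz
  obtain ⟨y, hy, z1, hz1, hdz1, hblock⟩ := block (nbG_irr G) (nbG_symm G) (xv i) (yv j)
    (TA.map xv) (TB.map yv) μ' hndA hdisj hμ'A hcomplete hu hw z hz' hμ'B hd
  have hdeg : μ'.degree < N := by
    rw [← hμ, hsum, map_add, map_add, hLA, List.map_cons, ls_cons, map_add,
      Finsupp.degree_single]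
    omega
  obtain ⟨z2, hz2, hdz2⟩ := ih _ hdeg μ' rfl z1 hz1 hdz1
  -- the error term
  change z - koszulD K _ y - wl K _ LA (dl K _ LB z1) ∈ InI (edgeI K (nbG G)) at hblock
  have hmem : z - koszulD K _ y - wl K _ LA (dl K _ LB z1) ∈ Sup K {μ} := by
    refine Submodule.sub_mem _ (Submodule.sub_mem _ hz ?_) ?_
    · rw [hsum]; exact koszulD_mem_Sup hy
    · have := wl_mem_Sup LA (dl_mem_Sup LB hz1)
      rw [hsum]; exact this
  obtain ⟨e', he', he''⟩ := lift_InI G μ _ hmem hblock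
  have hWμ : W μ = W μ' + wls (i :: TA) := by
    rw [hsum, map_add, map_add, hLA, hLB, ls_weight, ls_weight_y]
    omega
  have hThc := Th_cycle G _ hclique (j :: TB).length z2 hdz2
  refine ⟨koszulD K _ y + ((-1 : ℤ) ^ (i :: TA).length) •
    Th K _ ((i :: TA) ++ (j :: TB)) (j :: TB).length z2 + e', ?_, ?_⟩
  · have e1 : koszulD K _ y + ((-1 : ℤ) ^ (i :: TA).length) •
        Th K _ ((i :: TA) ++ (j :: TB)) (j :: TB).length z2 + e' - z =
        (e' - (z - koszulD K _ y - wl K _ LA (dl K _ LB z1))) +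
        (((-1 : ℤ) ^ (i :: TA).length) •
          Th K _ ((i :: TA) ++ (j :: TB)) (j :: TB).length (z2 - z1) +
        ((-1 : ℤ) ^ (i :: TA).length) •
          (Th K _ ((i :: TA) ++ (j :: TB)) (j :: TB).length z1 -
            ((-1 : ℤ) ^ (i :: TA).length) • wl K _ LA (dl K _ LB z1))) := by
      have hsq : ((-1 : ℤ) ^ (i :: TA).length) * ((-1 : ℤ) ^ (i :: TA).length) = 1 := by
        rw [← pow_add, ← two_mul, pow_mul]; simp
      rw [smul_sub (M := ℤ) _ (Th K _ ((i :: TA) ++ (j :: TB)) (j :: TB).length z1), smul_smul,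
        hsq, one_smul, map_sub]
      module
    rw [e1]
    refine Submodule.add_mem _ he'' (Submodule.add_mem _ (zsmul_mem ?_ _) (zsmul_mem ?_ _))
    · rw [hWμ]
      exact Th_strict _ _ hAB hz2
    · rw [hWμ]
      refine Th_lead _ _ hAB ?_
      exact Sup_mono (by
        intro κ hκ
        rw [Set.mem_singleton_iff] at hκ
        rw [hκ]
        exact Nat.lt_succ_self _) hz1
  · rw [map_add, map_add, koszulD_koszulD, zero_add, map_zsmul]
    exact Submodule.add_mem _ (zsmul_mem hThc _) (InI.koszulD he')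

end Pool.Agent.BEI
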