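import Pool.Agent.BEI.Ops

/-!
# Iterated wedge operators and Eagon–Northcott type Koszul cycles
-/

namespace Pool.Agent.BEI

open MvPolynomial Finset

set_option linter.unusedSectionVars false

section general

variable (K : Type*) [Field K] {V : Type*} [Fintype V] [LinearOrder V]
variable (M : Type*) [AddCommGroup M] [Module (MvPolynomial V K) M]

/-- wedge with the list `l` of basis vectors -/
noncomputable def wl : List V → (Finset V → M) →ₗ[MvPolynomial V K] (Finset V → M)
  | [] => LinearMap.id
  | v :: l => wedge K M v ∘ₗ wl l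

/-- wedge with the boundary of the list `l` of basis vectors -/
noncomputable def dl : List V → (Finset V → M) →ₗ[MvPolynomial V K] (Finset V → M)
  | [] => 0
  | v :: l => (X v : MvPolynomial V K) • wl K M l - wedge K M v ∘ₗ dl l

@[simp] theorem wl_nil (f : Finset V → M) : wl K M [] f = f := rfl

@[simp] theorem wl_cons (v : V) (l : List V) (f : Finset V → M) :
    wl K M (v :: l) f = wedge K M v (wl K M l f) := rfl

@[simp] theorem dl_nil (f : Finset V → M) : dl K M [] f = 0 := rfl

@[simp] theorem dl_cons (v : V) (l : List V) (f : Finset V → M) :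
    dl K M (v :: l) f = (X v : MvPolynomial V K) • wl K M l f - wedge K M v (dl K M l f) := rfl

theorem koszulD_wl (l : List V) (f : Finset V → M) :
    koszulD K M (wl K M l f) = dl K M l f + ((-1 : ℤ) ^ l.length) • wl K M l (koszulD K M f) := by
  induction l with
  | nil => simp
  | cons v l ih =>
    rw [wl_cons, koszulD_wedge, ih, dl_cons, map_add, map_zsmul, List.length_cons, pow_succ,
      wl_cons]
    module

end general

section vars

variable (K : Type*) [Field K] {n : ℕ}
variable (M : Type*) [AddCommGroup M] [Module (MvPolynomial (Vars n) K) M]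

/-- wedge with the sum over all ways of choosing `p` of the vertices of `Q` to be `y`'s and the
others to be `x`'s -/
noncomputable def Om : List (Fin n) → ℕ →
    ((Finset (Vars n) → M) →ₗ[MvPolynomial (Vars n) K] (Finset (Vars n) → M))
  | [], 0 => LinearMap.id
  | [], _ + 1 => 0
  | q :: Q, 0 => wedge K M (xv q) ∘ₗ Om Q 0
  | q :: Q, p + 1 => wedge K M (xv q) ∘ₗ Om Q (p + 1) + wedge K M (yv q) ∘ₗ Om Q p

/-- wedge with the `y`-part of the boundary of the previous element -/
noncomputable def Th : List (Fin n) → ℕ →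
    ((Finset (Vars n) → M) →ₗ[MvPolynomial (Vars n) K] (Finset (Vars n) → M))
  | [], _ => 0
  | q :: Q, 0 => - (wedge K M (xv q) ∘ₗ Th Q 0)
  | q :: Q, p + 1 => - (wedge K M (xv q) ∘ₗ Th Q (p + 1)) +
      (X (yv q) : MvPolynomial (Vars n) K) • Om K M Q p - wedge K M (yv q) ∘ₗ Th Q p

/-- wedge with the `x`-part of the boundary of the previous element -/
noncomputable def Ph : List (Fin n) → ℕ →
    ((Finset (Vars n) → M) →ₗ[MvPolynomial (Vars n) K] (Finset (Vars n) → M))
  | [], _ => 0
  | q :: Q, 0 => (X (xv q) : MvPolynomial (Vars n) K) • Om K M Q 0 - wedge K M (xv q) ∘ₗ Ph Q 0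
  | q :: Q, p + 1 => (X (xv q) : MvPolynomial (Vars n) K) • Om K M Q (p + 1)
      - wedge K M (xv q) ∘ₗ Ph Q (p + 1) - wedge K M (yv q) ∘ₗ Ph Q p

@[simp] theorem Om_nil_zero (f : Finset (Vars n) → M) : Om K M [] 0 f = f := rfl
@[simp] theorem Om_nil_succ (p : ℕ) (f : Finset (Vars n) → M) : Om K M [] (p + 1) f = 0 := rfl
@[simp] theorem Om_cons_zero (q : Fin n) (Q : List (Fin n)) (f : Finset (Vars n) → M) :
    Om K M (q :: Q) 0 f = wedge K M (xv q) (Om K M Q 0 f) := rfl
@[simp] theorem Om_cons_succ (q : Fin n) (Q : List (Fin n)) (p : ℕ) (f : Finset (Vars n) → M) :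
    Om K M (q :: Q) (p + 1) f =
      wedge K M (xv q) (Om K M Q (p + 1) f) + wedge K M (yv q) (Om K M Q p f) := rfl

@[simp] theorem Th_nil (p : ℕ) (f : Finset (Vars n) → M) : Th K M [] p f = 0 := by
  cases p <;> rfl
@[simp] theorem Th_cons_zero (q : Fin n) (Q : List (Fin n)) (f : Finset (Vars n) → M) :
    Th K M (q :: Q) 0 f = - wedge K M (xv q) (Th K M Q 0 f) := rfl
@[simp] theorem Th_cons_succ (q : Fin n) (Q : List (Fin n)) (p : ℕ) (f : Finset (Vars n) → M) :
    Th K M (q :: Q) (p + 1) f = - wedge K M (xv q) (Th K M Q (p + 1) f) +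
      (X (yv q) : MvPolynomial (Vars n) K) • Om K M Q p f - wedge K M (yv q) (Th K M Q p f) := rfl

@[simp] theorem Ph_nil (p : ℕ) (f : Finset (Vars n) → M) : Ph K M [] p f = 0 := by
  cases p <;> rfl
@[simp] theorem Ph_cons_zero (q : Fin n) (Q : List (Fin n)) (f : Finset (Vars n) → M) :
    Ph K M (q :: Q) 0 f = (X (xv q) : MvPolynomial (Vars n) K) • Om K M Q 0 f
      - wedge K M (xv q) (Ph K M Q 0 f) := rfl
@[simp] theorem Ph_cons_succ (q : Fin n) (Q : List (Fin n)) (p : ℕ) (f : Finset (Vars n) → M) :
    Ph K M (q :: Q) (p + 1) f = (X (xv q) : MvPolynomial (Vars n) K) • Om K M Q (p + 1) f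
      - wedge K M (xv q) (Ph K M Q (p + 1) f) - wedge K M (yv q) (Ph K M Q p f) := rfl

theorem koszulD_Om (Q : List (Fin n)) (p : ℕ) (f : Finset (Vars n) → M) :
    koszulD K M (Om K M Q p f) = Ph K M Q p f + Th K M Q p f +
      ((-1 : ℤ) ^ Q.length) • Om K M Q p (koszulD K M f) := by
  induction Q generalizing p with
  | nil => cases p <;> simp
  | cons q Q ih =>
    cases p with
    | zero =>
      rw [Om_cons_zero, koszulD_wedge, ih, Ph_cons_zero, Th_cons_zero, Om_cons_zero]
      simp only [map_add, map_zsmul, List.length_cons, pow_succ]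
      module
    | succ p =>
      rw [Om_cons_succ, map_add, koszulD_wedge, koszulD_wedge, ih, ih, Ph_cons_succ,
        Th_cons_succ, Om_cons_succ]
      simp only [map_add, map_zsmul, List.length_cons, pow_succ]
      module

theorem Th_zero (Q : List (Fin n)) (f : Finset (Vars n) → M) : Th K M Q 0 f = 0 := by
  induction Q with
  | nil => simp
  | cons q Q ih => simp [ih]

variable {K} in
/-- the relation `x_q y_r = x_r y_q` holds on `M` -/
def RelOn (q r : Fin n) : Prop := ∀ m : M,
  (X (xv q) : MvPolynomial (Vars n) K) • (X (yv r) : MvPolynomial (Vars n) K) • m =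
    (X (xv r) : MvPolynomial (Vars n) K) • (X (yv q) : MvPolynomial (Vars n) K) • m

theorem RelOn.apply {M : Type*} [AddCommGroup M] [Module (MvPolynomial (Vars n) K) M]
    {q r : Fin n} (h : RelOn (K := K) M q r) (f : Finset (Vars n) → M) :
    (X (xv q) : MvPolynomial (Vars n) K) • (X (yv r) : MvPolynomial (Vars n) K) • f =
    (X (yv q) : MvPolynomial (Vars n) K) • (X (xv r) : MvPolynomial (Vars n) K) • f := by
  funext A
  have := h (f A)
  rw [smul_comm (X (xv r) : MvPolynomial (Vars n) K)] at this
  exact this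

theorem smul_Th (q : Fin n) (Q : List (Fin n)) (h : ∀ r ∈ Q, RelOn (K := K) M q r) (p : ℕ)
    (f : Finset (Vars n) → M) :
    (X (xv q) : MvPolynomial (Vars n) K) • Th K M Q (p + 1) f =
      (X (yv q) : MvPolynomial (Vars n) K) • Ph K M Q p f := by
  induction Q generalizing p with
  | nil => simp
  | cons r Q ih =>
    have ih' := ih (fun s hs => h s (List.mem_cons_of_mem _ hs))
    have hr := (h r (by simp)).apply K
    cases p with
    | zero =>
      rw [Th_cons_succ, Ph_cons_zero, Th_zero]
      simp only [smul_sub, smul_add, smul_neg, ← map_smul, ih', hr, map_zero, sub_zero]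
      rw [neg_add_eq_sub]
    | succ p =>
      rw [Th_cons_succ, Ph_cons_succ]
      simp only [smul_sub, smul_add, smul_neg, ← map_smul, ih', hr]
      rw [neg_add_eq_sub]

theorem koszulD_Th (Q : List (Fin n)) (h : Q.Pairwise (RelOn (K := K) M)) (p : ℕ)
    (f : Finset (Vars n) → M) :
    koszulD K M (Th K M Q p f) =
      (- (-1 : ℤ) ^ Q.length) • Th K M Q p (koszulD K M f) := by
  induction Q generalizing p with
  | nil => simp
  | cons q Q ih =>
    rw [List.pairwise_cons] at h
    cases p with
    | zero => simp [Th_zero]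
    | succ p =>
      have h2 := smul_Th K M q Q h.1 p f
      rw [Th_cons_succ, map_sub, map_add, map_neg, koszulD_wedge, koszulD_wedge, map_smul,
        koszulD_Om, ih h.2, ih h.2, Th_cons_succ, h2]
      simp only [map_zsmul, List.length_cons, pow_succ]
      module

end vars

section naturality

variable {K : Type*} [Field K] {n : ℕ}
variable {M N : Type*} [AddCommGroup M] [Module (MvPolynomial (Vars n) K) M]
  [AddCommGroup N] [Module (MvPolynomial (Vars n) K) N]

theorem kmap_Om (g : M →ₗ[MvPolynomial (Vars n) K] N) (Q : List (Fin n)) (p : ℕ)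
    (f : Finset (Vars n) → M) : kmap g (Om K M Q p f) = Om K N Q p (kmap g f) := by
  induction Q generalizing p with
  | nil => cases p <;> simp
  | cons q Q ih => cases p <;> simp [kmap_wedge, ih]

theorem kmap_Th (g : M →ₗ[MvPolynomial (Vars n) K] N) (Q : List (Fin n)) (p : ℕ)
    (f : Finset (Vars n) → M) : kmap g (Th K M Q p f) = Th K N Q p (kmap g f) := by
  induction Q generalizing p with
  | nil => cases p <;> simp
  | cons q Q ih => cases p <;> simp [kmap_wedge, kmap_Om, ih]

end naturality

end Pool.Agent.BEI
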