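import Pool.Agent.BEI.LiftAll

/-!
# Normal forms modulo `J_G`, and the initial ideal of `J_G`
-/

namespace Pool.Agent.BEI

open MvPolynomial Finset

set_option linter.unusedSectionVars false

variable {K : Type*} [Field K] {n : ℕ}

/-- one reduction step on monomials -/
def Red (G : SimpleGraph (Fin n)) (m m' : Vars n →₀ ℕ) : Prop :=
  ∃ i j m1, i < j ∧ G.Adj i j ∧ m = m1 + Finsupp.single (xv i) 1 + Finsupp.single (yv j) 1 ∧
    m' = m1 + Finsupp.single (xv j) 1 + Finsupp.single (yv i) 1

theorem Red.bad {G : SimpleGraph (Fin n)} {m m' : Vars n →₀ ℕ} (h : Red G m m') :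
    Bad (nbG G) m := by
  obtain ⟨i, j, m1, hij, hadj, rfl, rfl⟩ := h
  rw [bad_iff]
  refine ⟨i, j, hij, hadj, ?_, ?_⟩
  · simp only [Finsupp.add_apply, Finsupp.single_eq_same]; omega
  · simp only [Finsupp.add_apply, Finsupp.single_eq_same]; omega

theorem Red.W_lt {G : SimpleGraph (Fin n)} {m m' : Vars n →₀ ℕ} (h : Red G m m') :
    W m' < W m := by
  obtain ⟨i, j, m1, hij, hadj, rfl, rfl⟩ := h
  exact W_reduce hij m1

theorem Red.degree_eq {G : SimpleGraph (Fin n)} {m m' : Vars n →₀ ℕ} (h : Red G m m') :
    m'.degree = m.degree := by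
  obtain ⟨i, j, m1, hij, hadj, rfl, rfl⟩ := h
  simp only [map_add, Finsupp.degree_single]

theorem Red.lex_lt {G : SimpleGraph (Fin n)} {m m' : Vars n →₀ ℕ} (h : Red G m m') :
    toLex m' < toLex m := by
  obtain ⟨i, j, m1, hij, hadj, rfl, rfl⟩ := h
  rw [Finsupp.Lex.lt_iff]
  refine ⟨xv i, ?_, ?_⟩
  · intro v hv
    have h1 : v ≠ xv i := ne_of_lt hv
    have hyv : ∀ k, v ≠ yv k := by
      intro k hk
      rw [hk] at hv
      exact absurd hv (by unfold xv yv; simp)
    have h2 : v ≠ xv j := by
      intro hk
      rw [hk] at hv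
      have : j < i := by unfold xv at hv; simpa using hv
      exact absurd hij (not_lt.mpr this.le)
    simp only [ofLex_toLex, Finsupp.add_apply]
    rw [Finsupp.single_eq_of_ne h1, Finsupp.single_eq_of_ne h2, Finsupp.single_eq_of_ne (hyv i),
      Finsupp.single_eq_of_ne (hyv j)]
  · simp only [ofLex_toLex, Finsupp.add_apply, Finsupp.single_eq_same]
    rw [Finsupp.single_eq_of_ne (fun h => (ne_of_lt hij) (xv_inj.mp h)),
      Finsupp.single_eq_of_ne (xv_ne_yv i i), Finsupp.single_eq_of_ne (xv_ne_yv i j)]
    omega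

theorem Red.sub_mem {G : SimpleGraph (Fin n)} {m m' : Vars n →₀ ℕ} (h : Red G m m') (c : K) :
    monomial m c - monomial m' c ∈ binomialEdgeIdeal K G := by
  obtain ⟨i, j, m1, hij, hadj, rfl, rfl⟩ := h
  exact monomial_reduce hij hadj m1 c

theorem exists_red {G : SimpleGraph (Fin n)} {m : Vars n →₀ ℕ} (h : Bad (nbG G) m) :
    ∃ m', Red G m m' := by
  obtain ⟨i, j, m1, hij, hadj, rfl⟩ := exists_bad_dec h
  exact ⟨_, i, j, m1, hij, hadj, rfl, rfl⟩

/-- normal form of a monomial -/
theorem exists_nf_monomial (G : SimpleGraph (Fin n)) (c : K) :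
    ∀ (N : ℕ) (m : Vars n →₀ ℕ), W m = N →
    ∃ m', ¬ Bad (nbG G) m' ∧ Relation.ReflTransGen (Red G) m m' ∧
      monomial m c - monomial m' c ∈ binomialEdgeIdeal K G := by
  intro N
  induction N using Nat.strong_induction_on with
  | _ N ih =>
  intro m hm
  by_cases hb : Bad (nbG G) m
  · obtain ⟨m1, h1⟩ := exists_red hb
    obtain ⟨m2, h2, h3, h4⟩ := ih (W m1) (hm ▸ h1.W_lt) m1 rfl
    refine ⟨m2, h2, Relation.ReflTransGen.head h1 h3, ?_⟩
    have := Ideal.add_mem _ (h1.sub_mem c) h4
    rwa [sub_add_sub_cancel] at this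
  · exact ⟨m, hb, Relation.ReflTransGen.refl, by rw [sub_self]; exact Submodule.zero_mem _⟩

/-- normal form of a polynomial -/
theorem exists_nf (G : SimpleGraph (Fin n)) (P : (Vars n →₀ ℕ) → Prop)
    (hP : ∀ m m', Red G m m' → P m → P m') (p : MvPolynomial (Vars n) K)
    (hp : ∀ m, coeff m p ≠ 0 → P m) :
    ∃ q, (∀ m, coeff m q ≠ 0 → P m ∧ ¬ Bad (nbG G) m) ∧ p - q ∈ binomialEdgeIdeal K G := by
  have h1 : ∀ m : Vars n →₀ ℕ, ∃ m', ¬ Bad (nbG G) m' ∧ Relation.ReflTransGen (Red G) m m' ∧
      monomial m (coeff m p) - monomial m' (coeff m p) ∈ binomialEdgeIdeal K G :=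
    fun m => exists_nf_monomial G (coeff m p) _ m rfl
  choose nf hnf1 hnf2 hnf3 using h1
  refine ⟨∑ m ∈ p.support, monomial (nf m) (coeff m p), ?_, ?_⟩
  · intro m hm
    rw [coeff_sum] at hm
    obtain ⟨m0, hm0, hne⟩ := Finset.exists_ne_zero_of_sum_ne_zero hm
    rw [coeff_monomial] at hne
    split_ifs at hne with h
    · rw [← h]
      refine ⟨?_, hnf1 m0⟩
      have hstart : P m0 := hp m0 hne
      have hall : ∀ a, Relation.ReflTransGen (Red G) m0 a → P a := by
        intro a ha
        induction ha with
        | refl => exact hstart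
        | tail _ hbc ih => exact hP _ _ hbc ih
      exact hall _ (hnf2 m0)
    · exact absurd rfl hne
  · have h2 : p - ∑ m ∈ p.support, monomial (nf m) (coeff m p) =
        ∑ m ∈ p.support, (monomial m (coeff m p) - monomial (nf m) (coeff m p)) := by
      rw [Finset.sum_sub_distrib, ← p.as_sum]
    rw [h2]
    exact Ideal.sum_mem _ fun m _ => hnf3 m

/-- normal form with strict decrease of the weight for bad monomials -/
theorem exists_nf_bad (G : SimpleGraph (Fin n)) (P P' : (Vars n →₀ ℕ) → Prop)
    (hP : ∀ m m', Red G m m' → P m → P' m') (hP' : ∀ m m', Red G m m' → P' m → P' m')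
    (p : MvPolynomial (Vars n) K)
    (hp : ∀ m, coeff m p ≠ 0 → P m ∧ Bad (nbG G) m) :
    ∃ q, (∀ m, coeff m q ≠ 0 → P' m ∧ ¬ Bad (nbG G) m) ∧ p - q ∈ binomialEdgeIdeal K G := by
  have h1 : ∀ m : Vars n →₀ ℕ, ∃ p' : MvPolynomial (Vars n) K, (coeff m p ≠ 0 →
      (∀ m', coeff m' p' ≠ 0 → P' m') ∧
      monomial m (coeff m p) - p' ∈ binomialEdgeIdeal K G) := by
    intro m
    by_cases h : coeff m p ≠ 0
    · obtain ⟨m', hm'⟩ := exists_red (hp m h).2
      refine ⟨monomial m' (coeff m p), fun _ => ⟨?_, hm'.sub_mem _⟩⟩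
      intro m'' hm''
      rw [coeff_monomial] at hm''
      split_ifs at hm'' with h2
      · rw [← h2]; exact hP _ _ hm' (hp m h).1
      · exact absurd rfl hm''
    · exact ⟨0, fun h' => absurd h' h⟩
  choose g hg using h1
  obtain ⟨q, hq1, hq2⟩ := exists_nf G P' hP' (∑ m ∈ p.support, g m) (by
    intro m hm
    rw [coeff_sum] at hm
    obtain ⟨m0, hm0, hne⟩ := Finset.exists_ne_zero_of_sum_ne_zero hm
    exact (hg m0 (mem_support_iff.mp hm0)).1 m hne)
  refine ⟨q, hq1, ?_⟩
  have h2 : p - ∑ m ∈ p.support, g m ∈ binomialEdgeIdeal K G := by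
    have h3 : p - ∑ m ∈ p.support, g m =
        ∑ m ∈ p.support, (monomial m (coeff m p) - g m) := by
      rw [Finset.sum_sub_distrib, ← p.as_sum]
    rw [h3]
    exact Ideal.sum_mem _ fun m hm => (hg m (mem_support_iff.mp hm)).2
  have := Ideal.add_mem _ h2 hq2
  rwa [sub_add_sub_cancel] at this

section confluence

theorem Red.local_confluence {G : SimpleGraph (Fin n)} (hG : IsClosedLabelling G)
    (m b c : Vars n →₀ ℕ) (hb : Red G m b) (hc : Red G m c) :
    ∃ d, Relation.ReflGen (Red G) b d ∧ Relation.ReflTransGen (Red G) c d := by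
  obtain ⟨i, j, m1, hij, hadj, hm1, rfl⟩ := hb
  obtain ⟨k, l, m2, hkl, hadj', hm2, rfl⟩ := hc
  have hval : ∀ v, m1 v + Finsupp.single (xv i) 1 v + Finsupp.single (yv j) 1 v =
      m2 v + Finsupp.single (xv k) 1 v + Finsupp.single (yv l) 1 v := by
    intro v
    have := DFunLike.congr_fun (hm1.symm.trans hm2) v
    simpa [Finsupp.add_apply] using this
  by_cases hik : i = k
  · subst hik
    by_cases hjl : j = l
    · subst hjl
      have : m1 = m2 := by
        have := hm1.symm.trans hm2
        exact add_right_cancel (add_right_cancel this)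
      subst this
      exact ⟨_, Relation.ReflGen.refl, Relation.ReflTransGen.refl⟩
    · -- same x, different y
      have hjl' : G.Adj j l := hG.1 i j l hadj hadj' hij hkl hjl
      -- m1 contains y_l, m2 contains y_j
      obtain ⟨m3, hm3⟩ : ∃ m3, m1 = m3 + Finsupp.single (yv l) 1 := by
        refine ⟨m1 - Finsupp.single (yv l) 1, (sub_single_add ?_).symm⟩
        rw [Finsupp.mem_support_iff]
        have := hval (yv l)
        rw [Finsupp.single_eq_of_ne (yv_ne_xv l i), Finsupp.single_eq_same,
          Finsupp.single_eq_of_ne (fun h => hjl (yv_inj.mp h).symm)] at this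
        omega
      have hm4 : m2 = m3 + Finsupp.single (yv j) 1 := by
        have h1 := hm1.symm.trans hm2
        rw [hm3] at h1
        have h2 : (m3 + Finsupp.single (yv j) 1) +
            (Finsupp.single (xv i) 1 + Finsupp.single (yv l) 1) =
            m2 + (Finsupp.single (xv i) 1 + Finsupp.single (yv l) 1) := by
          rw [← add_assoc m2, ← h1]
          ac_rfl
        exact (add_right_cancel h2).symm
      subst hm3 hm4
      rcases lt_or_gt_of_ne hjl with h | h
      · -- b → c
        refine ⟨_, Relation.ReflGen.single ?_, Relation.ReflTransGen.refl⟩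
        refine ⟨j, l, m3 + Finsupp.single (yv i) 1, h, hjl', ?_, ?_⟩ <;> ac_rfl
      · refine ⟨_, Relation.ReflGen.refl, Relation.ReflTransGen.single ?_⟩
        refine ⟨l, j, m3 + Finsupp.single (yv i) 1, h, hjl'.symm, ?_, ?_⟩ <;> ac_rfl
  · by_cases hjl : j = l
    · subst hjl
      have hik' : G.Adj i k := hG.2 i k j hadj hadj' hij hkl hik
      obtain ⟨m3, hm3⟩ : ∃ m3, m1 = m3 + Finsupp.single (xv k) 1 := by
        refine ⟨m1 - Finsupp.single (xv k) 1, (sub_single_add ?_).symm⟩
        rw [Finsupp.mem_support_iff]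
        have := hval (xv k)
        rw [Finsupp.single_eq_of_ne (xv_ne_yv k j), Finsupp.single_eq_same,
          Finsupp.single_eq_of_ne (fun h => hik (xv_inj.mp h).symm)] at this
        omega
      have hm4 : m2 = m3 + Finsupp.single (xv i) 1 := by
        have h1 := hm1.symm.trans hm2
        rw [hm3] at h1
        have h2 : (m3 + Finsupp.single (xv i) 1) +
            (Finsupp.single (xv k) 1 + Finsupp.single (yv j) 1) =
            m2 + (Finsupp.single (xv k) 1 + Finsupp.single (yv j) 1) := by
          rw [← add_assoc m2, ← h1]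
          ac_rfl
        exact (add_right_cancel h2).symm
      subst hm3 hm4
      -- b = m3 + x_k + x_j + y_i ; c = m3 + x_i + x_j + y_k
      rcases lt_or_gt_of_ne hik with h | h
      · -- i < k : c has x_i y_k → x_k y_i : c → b
        refine ⟨_, Relation.ReflGen.refl, Relation.ReflTransGen.single ?_⟩
        refine ⟨i, k, m3 + Finsupp.single (xv j) 1, h, hik', ?_, ?_⟩ <;> ac_rfl
      · refine ⟨_, Relation.ReflGen.single ?_, Relation.ReflTransGen.refl⟩
        refine ⟨k, i, m3 + Finsupp.single (xv j) 1, h, hik'.symm, ?_, ?_⟩ <;> ac_rfl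
    · -- disjoint
      obtain ⟨m3, hm3⟩ : ∃ m3, m1 = m3 + Finsupp.single (xv k) 1 + Finsupp.single (yv l) 1 := by
        refine ⟨m1 - Finsupp.single (yv l) 1 - Finsupp.single (xv k) 1, ?_⟩
        rw [sub_single_add, sub_single_add]
        · rw [Finsupp.mem_support_iff]
          have := hval (yv l)
          rw [Finsupp.single_eq_of_ne (yv_ne_xv l i), Finsupp.single_eq_same,
            Finsupp.single_eq_of_ne (fun h => hjl (yv_inj.mp h).symm)] at this
          omega
        · rw [Finsupp.mem_support_iff, Finsupp.tsub_apply,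
            Finsupp.single_eq_of_ne (xv_ne_yv k l)]
          have := hval (xv k)
          rw [Finsupp.single_eq_of_ne (xv_ne_yv k j), Finsupp.single_eq_same,
            Finsupp.single_eq_of_ne (fun h => hik (xv_inj.mp h).symm)] at this
          omega
      have hm4 : m2 = m3 + Finsupp.single (xv i) 1 + Finsupp.single (yv j) 1 := by
        have h1 := hm1.symm.trans hm2
        rw [hm3] at h1
        have h2 : (m3 + Finsupp.single (xv i) 1 + Finsupp.single (yv j) 1) +
            (Finsupp.single (xv k) 1 + Finsupp.single (yv l) 1) =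
            m2 + (Finsupp.single (xv k) 1 + Finsupp.single (yv l) 1) := by
          rw [← add_assoc m2, ← h1]
          ac_rfl
        exact (add_right_cancel h2).symm
      subst hm3 hm4
      refine ⟨m3 + Finsupp.single (xv j) 1 + Finsupp.single (yv i) 1 + Finsupp.single (xv l) 1
        + Finsupp.single (yv k) 1, Relation.ReflGen.single ?_, Relation.ReflTransGen.single ?_⟩
      · refine ⟨k, l, m3 + Finsupp.single (xv j) 1 + Finsupp.single (yv i) 1, hkl, hadj', ?_, ?_⟩
          <;> ac_rfl
      · refine ⟨i, j, m3 + Finsupp.single (xv l) 1 + Finsupp.single (yv k) 1, hij, hadj, ?_, ?_⟩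
          <;> ac_rfl

variable {G : SimpleGraph (Fin n)} (hG : IsClosedLabelling G)
include hG

theorem rtg_iff {m m' m0 : Vars n →₀ ℕ} (h0 : ¬ Bad (nbG G) m0) (h : Red G m m') :
    Relation.ReflTransGen (Red G) m m0 ↔ Relation.ReflTransGen (Red G) m' m0 := by
  constructor
  · intro h1
    obtain ⟨d, hd1, hd2⟩ := Relation.church_rosser
      (fun a b c => Red.local_confluence hG a b c) h1 (Relation.ReflTransGen.single h)
    rcases Relation.ReflTransGen.cases_head hd1 with rfl | ⟨e, he, _⟩
    · exact hd2
    · exact absurd he.bad h0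
  · intro h1
    exact Relation.ReflTransGen.head h h1

open Classical in
/-- sum of the coefficients of the monomials reducing to `m0` -/
noncomputable def lam (K : Type*) [Field K] (G : SimpleGraph (Fin n)) (m0 : Vars n →₀ ℕ) :
    MvPolynomial (Vars n) K →ₗ[K] K :=
  (basisMonomials (Vars n) K).constr K
    fun m => if Relation.ReflTransGen (Red G) m m0 then (1 : K) else 0

open Classical in
omit hG in
theorem lam_monomial (m0 m : Vars n →₀ ℕ) (c : K) :
    lam K G m0 (monomial m c) = if Relation.ReflTransGen (Red G) m m0 then c else 0 := by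
  have h1 : (monomial m c : MvPolynomial (Vars n) K) = c • basisMonomials (Vars n) K m := by
    rw [coe_basisMonomials, smul_monomial, smul_eq_mul, mul_one]
  unfold lam
  rw [h1, map_smul, Module.Basis.constr_basis]
  split_ifs
  · rw [smul_eq_mul, mul_one]
  · rw [smul_zero]

theorem lam_eq_zero {m0 : Vars n →₀ ℕ} (h0 : ¬ Bad (nbG G) m0)
    {f : MvPolynomial (Vars n) K} (hf : f ∈ binomialEdgeIdeal K G) : lam K G m0 f = 0 := by
  classical
  have key : ∀ a : MvPolynomial (Vars n) K, lam K G m0 (a * f) = 0 := by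
    unfold binomialEdgeIdeal at hf
    induction hf using Submodule.span_induction with
    | mem x h =>
      obtain ⟨i, j, hij, hadj, rfl⟩ := h
      intro a
      rw [a.as_sum, Finset.sum_mul, map_sum]
      apply Finset.sum_eq_zero
      intro v _
      have h1 : (monomial v (coeff v a) : MvPolynomial (Vars n) K) *
          (X (xv i) * X (yv j) - X (xv j) * X (yv i)) =
          monomial (v + Finsupp.single (xv i) 1 + Finsupp.single (yv j) 1) (coeff v a) -
          monomial (v + Finsupp.single (xv j) 1 + Finsupp.single (yv i) 1) (coeff v a) := by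
        rw [mul_sub]
        simp only [X, monomial_mul, mul_one]
        rw [add_assoc, add_assoc]
      have hred : Red G (v + Finsupp.single (xv i) 1 + Finsupp.single (yv j) 1)
          (v + Finsupp.single (xv j) 1 + Finsupp.single (yv i) 1) :=
        ⟨i, j, v, hij, hadj, rfl, rfl⟩
      rw [h1, map_sub, lam_monomial, lam_monomial, if_congr (rtg_iff hG h0 hred) rfl rfl, sub_self]
    | zero => intro a; simp
    | add x y _ _ hx hy => intro a; rw [mul_add, map_add, hx, hy, add_zero]
    | smul b x _ hx => intro a; rw [smul_eq_mul, ← mul_assoc]; exact hx _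
  simpa using key 1

theorem std_eq_zero {f : MvPolynomial (Vars n) K} (hf : f ∈ binomialEdgeIdeal K G)
    (hstd : ∀ m, coeff m f ≠ 0 → ¬ Bad (nbG G) m) : f = 0 := by
  classical
  by_contra hne
  obtain ⟨m0, hm0⟩ := ne_zero_iff.mp hne
  have h1 := lam_eq_zero hG (hstd m0 hm0) hf
  rw [f.as_sum, map_sum] at h1
  rw [Finset.sum_eq_single m0] at h1
  · rw [lam_monomial, if_pos Relation.ReflTransGen.refl] at h1
    exact hm0 h1
  · intro m hm hmm0
    rw [lam_monomial, if_neg]
    intro h2
    rcases Relation.ReflTransGen.cases_head h2 with h3 | ⟨e, he, _⟩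
    · exact hmm0 h3
    · exact hstd m (mem_support_iff.mp hm) he.bad
  · intro h
    exact absurd (mem_support_iff.mpr hm0) h

theorem bad_degree {f : MvPolynomial (Vars n) K} (hf : f ∈ binomialEdgeIdeal K G) (hne : f ≠ 0) :
    Bad (nbG G) ((MonomialOrder.lex : MonomialOrder (Vars n)).degree f) := by
  classical
  by_contra hb
  set m0 := (MonomialOrder.lex : MonomialOrder (Vars n)).degree f with hm0
  have hm0s : m0 ∈ f.support := (MonomialOrder.degree_mem_support hne)
  have h1 := lam_eq_zero hG hb hf
  rw [f.as_sum, map_sum] at h1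
  rw [Finset.sum_eq_single m0] at h1
  · rw [lam_monomial, if_pos Relation.ReflTransGen.refl] at h1
    exact (mem_support_iff.mp hm0s) h1
  · intro m hm hmm0
    rw [lam_monomial, if_neg]
    intro h2
    have hle : toLex m ≤ toLex m0 := by
      have := (MonomialOrder.lex : MonomialOrder (Vars n)).le_degree hm
      exact this
    have hlt : toLex m0 < toLex m := by
      have h3 : ∀ a, Relation.ReflTransGen (Red G) m a → toLex a ≤ toLex m := by
        intro a ha
        induction ha with
        | refl => exact le_refl _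
        | tail _ hbc ih => exact (hbc.lex_lt.le).trans ih
      exact lt_of_le_of_ne (h3 m0 h2) (fun h => hmm0 (toLex.injective h).symm)
    exact absurd hle (not_le.mpr hlt)
  · intro h
    exact absurd hm0s h

theorem initialIdeal_eq :
    initialIdeal (MonomialOrder.lex : MonomialOrder (Vars n)) (binomialEdgeIdeal K G) =
      edgeI K (nbG G) := by
  classical
  apply le_antisymm
  · unfold initialIdeal
    rw [Ideal.span_le]
    rintro _ ⟨f, hf, rfl⟩
    by_cases h0 : f = 0
    · rw [h0]
      simp
    · rw [SetLike.mem_coe, mem_edgeI _ (nbG_irr G)]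
      intro m hm
      unfold MonomialOrder.leadingTerm at hm
      rw [coeff_monomial] at hm
      split_ifs at hm with h
      · rw [← h]
        exact bad_degree hG hf h0
      · exact absurd rfl hm
  · unfold edgeI
    rw [Ideal.span_le]
    rintro _ ⟨a, b, hab, rfl⟩
    obtain ⟨i, j, hij, hadj, h⟩ := hab
    have key : (X (xv i) * X (yv j) : MvPolynomial (Vars n) K) ∈
        initialIdeal (MonomialOrder.lex : MonomialOrder (Vars n)) (binomialEdgeIdeal K G) := by
      have h1 : (MonomialOrder.lex : MonomialOrder (Vars n)).leadingTerm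
          (X (xv i) * X (yv j) - X (xv j) * X (yv i) : MvPolynomial (Vars n) K) =
          X (xv i) * X (yv j) := by
        have e1 : (X (xv i) * X (yv j) - X (xv j) * X (yv i) : MvPolynomial (Vars n) K) =
            monomial (Finsupp.single (xv i) 1 + Finsupp.single (yv j) 1) 1 +
            monomial (Finsupp.single (xv j) 1 + Finsupp.single (yv i) 1) (-1) := by
          simp only [X, monomial_mul, mul_one, map_neg]
          rw [sub_eq_add_neg]
        have hlt : (MonomialOrder.lex : MonomialOrder (Vars n)).toSyn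
            ((MonomialOrder.lex : MonomialOrder (Vars n)).degree
              (monomial (Finsupp.single (xv j) 1 + Finsupp.single (yv i) 1) (-1 : K))) <
            (MonomialOrder.lex : MonomialOrder (Vars n)).toSyn
            ((MonomialOrder.lex : MonomialOrder (Vars n)).degree
              (monomial (Finsupp.single (xv i) 1 + Finsupp.single (yv j) 1) (1 : K))) := by
          rw [MonomialOrder.degree_monomial, MonomialOrder.degree_monomial,
            if_neg (by simp), if_neg one_ne_zero]
          have hred : Red G (0 + Finsupp.single (xv i) 1 + Finsupp.single (yv j) 1)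
            (0 + Finsupp.single (xv j) 1 + Finsupp.single (yv i) 1) :=
            ⟨i, j, 0, hij, hadj, rfl, rfl⟩
          have := hred.lex_lt
          rw [zero_add, zero_add] at this
          exact this
        unfold MonomialOrder.leadingTerm
        rw [e1, MonomialOrder.degree_add_of_lt hlt, MonomialOrder.leadingCoeff_add_of_lt hlt,
          MonomialOrder.degree_monomial, if_neg one_ne_zero, MonomialOrder.leadingCoeff_monomial]
        simp only [X, monomial_mul, mul_one]
      rw [← h1]
      exact Ideal.subset_span ⟨_, fij_mem G hij hadj, rfl⟩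
    rcases h with ⟨rfl, rfl⟩ | ⟨rfl, rfl⟩
    · exact key
    · rw [mul_comm]; exact key

end confluence

end Pool.Agent.BEI
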