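import Pool.Agent.BEI.Defs

/-!
# Koszul operators: wedge with `e_v`, Cartan formula, `d² = 0`
-/

namespace Pool.Agent.BEI

open MvPolynomial Finset

set_option linter.unusedSectionVars false

variable {K : Type*} [Field K] {V : Type*} [Fintype V] [LinearOrder V]

theorem ksign_mul_self (a : V) (B : Finset V) : ksign a B * ksign a B = 1 := by
  unfold ksign
  rw [← pow_add, ← two_mul, pow_mul]
  simp

theorem ksign_insert (a c : V) (B : Finset V) (hc : c ∉ B) :
    ksign a (insert c B) = if c < a then - ksign a B else ksign a B := by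
  unfold ksign
  rw [Finset.filter_insert]
  split_ifs with h
  · rw [Finset.card_insert_of_notMem (by simp [hc]), pow_succ]; ring
  · rfl

theorem ksign_swap (a v : V) (B : Finset V) (ha : a ∉ B) (hv : v ∉ B) (hav : a ≠ v) :
    ksign a (insert v B) * ksign v (insert a B) = - (ksign v B * ksign a B) := by
  rw [ksign_insert a v B hv, ksign_insert v a B ha]
  rcases lt_or_gt_of_ne hav with h | h
  · rw [if_neg (not_lt.mpr h.le), if_pos h]; ring
  · rw [if_pos h, if_neg (not_lt.mpr h.le)]; ring

theorem ksign_swap' (a v : V) (B : Finset V) (ha : a ∉ B) (hv : v ∉ B) (hav : a ≠ v) :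
    ksign a B * ksign v (insert a B) = - (ksign v B * ksign a (insert v B)) := by
  rw [ksign_insert a v B hv, ksign_insert v a B ha]
  rcases lt_or_gt_of_ne hav with h | h
  · rw [if_neg (not_lt.mpr h.le), if_pos h]; ring
  · rw [if_pos h, if_neg (not_lt.mpr h.le)]; ring

section ops

variable (M : Type*) [AddCommGroup M] [Module (MvPolynomial V K) M]

theorem koszulD_apply (f : Finset V → M) (B : Finset V) :
    koszulD K M f B = ∑ a ∈ univ \ B,
      ksign a B • ((X a : MvPolynomial V K) • f (insert a B)) := by
  simp only [koszulD, LinearMap.pi_apply, LinearMap.sum_apply, LinearMap.smul_apply,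
    LinearMap.proj_apply, smul_assoc]

variable (K) in
/-- left multiplication by `e_v` on the Koszul complex -/
noncomputable def wedge (v : V) : (Finset V → M) →ₗ[MvPolynomial V K] (Finset V → M) :=
  LinearMap.pi fun A => if v ∈ A then ksign v (A.erase v) • LinearMap.proj (A.erase v) else 0

theorem wedge_apply_mem (v : V) (f : Finset V → M) (A : Finset V) (h : v ∈ A) :
    wedge K M v f A = ksign v (A.erase v) • f (A.erase v) := by
  simp [wedge, h]

theorem wedge_apply_notMem (v : V) (f : Finset V → M) (A : Finset V) (h : v ∉ A) :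
    wedge K M v f A = 0 := by
  simp [wedge, h]

theorem cartan (v : V) (f : Finset V → M) :
    koszulD K M (wedge K M v f) + wedge K M v (koszulD K M f) = (X v : MvPolynomial V K) • f := by
  funext B
  rw [Pi.add_apply, Pi.smul_apply, koszulD_apply]
  by_cases hv : v ∈ B
  · rw [wedge_apply_mem M v _ B hv, koszulD_apply]
    obtain ⟨B', hvB', rfl⟩ : ∃ B', v ∉ B' ∧ insert v B' = B :=
      ⟨B.erase v, by simp, Finset.insert_erase hv⟩
    rw [Finset.erase_insert hvB']
    have huniv : univ \ B' = insert v (univ \ insert v B') := by
      ext x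
      simp only [mem_sdiff, mem_univ, true_and, mem_insert]
      by_cases hx : x = v
      · subst hx; simp [hvB']
      · simp [hx]
    rw [huniv, Finset.sum_insert (by simp), smul_add, smul_smul,
      ksign_mul_self, one_smul]
    have : (∑ a ∈ univ \ insert v B', ksign a (insert v B') •
        ((X a : MvPolynomial V K) • wedge K M v f (insert a (insert v B')))) +
        ksign v B' • (∑ a ∈ univ \ insert v B', ksign a B' •
          ((X a : MvPolynomial V K) • f (insert a B'))) = 0 := by
      rw [Finset.smul_sum, ← Finset.sum_add_distrib]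
      apply Finset.sum_eq_zero
      intro a ha
      simp only [mem_sdiff, mem_univ, true_and, mem_insert, not_or] at ha
      obtain ⟨hav, haB⟩ := ha
      rw [wedge_apply_mem M v f _ (by simp), Finset.insert_comm,
        Finset.erase_insert (by simp [hvB', Ne.symm hav]),
        smul_comm (X a : MvPolynomial V K) (ksign v (insert a B')), smul_smul, smul_smul,
        ksign_swap a v B' haB hvB' hav, ← add_smul]
      simp
    rw [add_comm ((X v : MvPolynomial V K) • f (insert v B')), ← add_assoc, this, zero_add]
  · rw [wedge_apply_notMem M v _ B hv, add_zero]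
    rw [Finset.sum_eq_single v]
    · rw [wedge_apply_mem M v f _ (by simp), Finset.erase_insert hv,
        smul_comm (X v : MvPolynomial V K) (ksign v B), smul_smul,
        ksign_mul_self, one_smul]
    · intro a ha hav
      rw [wedge_apply_notMem M v f _ (by simp [hv, Ne.symm hav])]
      simp
    · intro h
      simp [hv] at h

theorem koszulD_wedge (v : V) (f : Finset V → M) :
    koszulD K M (wedge K M v f) = (X v : MvPolynomial V K) • f - wedge K M v (koszulD K M f) :=
  eq_sub_of_add_eq (cartan M v f)

theorem koszulD_koszulD (f : Finset V → M) : koszulD K M (koszulD K M f) = 0 := by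
  funext B
  rw [koszulD_apply, Pi.zero_apply]
  simp_rw [koszulD_apply, Finset.smul_sum]
  rw [Finset.sum_sigma']
  refine Finset.sum_involution (fun p _ => ⟨p.2, p.1⟩) ?_ ?_ ?_ ?_
  · rintro ⟨a, c⟩ h
    simp only [mem_sigma, mem_sdiff, mem_univ, true_and, mem_insert, not_or] at h
    obtain ⟨haB, hca, hcB⟩ := h
    simp only
    rw [Finset.insert_comm c a B, smul_comm (X a : MvPolynomial V K) (ksign c (insert a B)),
      smul_comm (X c : MvPolynomial V K) (ksign a (insert c B)),
      smul_comm (X c : MvPolynomial V K) (X a : MvPolynomial V K),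
      smul_smul (ksign a B), smul_smul (ksign c B),
      ksign_swap' a c B haB hcB (Ne.symm hca), ← add_smul]
    simp
  · rintro ⟨a, c⟩ h hne heq
    simp only [mem_sigma, mem_sdiff, mem_univ, true_and, mem_insert, not_or] at h
    simp only [Sigma.mk.injEq] at heq
    exact h.2.1 heq.1
  · rintro ⟨a, c⟩ h
    simp only [mem_sigma, mem_sdiff, mem_univ, true_and, mem_insert, not_or] at h ⊢
    exact ⟨h.2.2, Ne.symm h.2.1, h.1⟩
  · rintro ⟨a, c⟩ h
    rfl

end ops

section naturality

variable {M N : Type*} [AddCommGroup M] [Module (MvPolynomial V K) M]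
  [AddCommGroup N] [Module (MvPolynomial V K) N]

/-- the map of Koszul complexes induced by a linear map -/
noncomputable def kmap (g : M →ₗ[MvPolynomial V K] N) :
    (Finset V → M) →ₗ[MvPolynomial V K] (Finset V → N) :=
  LinearMap.pi fun A => g ∘ₗ LinearMap.proj A

omit [Fintype V] [LinearOrder V] in
theorem kmap_apply (g : M →ₗ[MvPolynomial V K] N) (f : Finset V → M) (A : Finset V) :
    kmap g f A = g (f A) := rfl

theorem kmap_koszulD (g : M →ₗ[MvPolynomial V K] N) (f : Finset V → M) :
    kmap g (koszulD K M f) = koszulD K N (kmap g f) := by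
  funext B
  simp only [kmap_apply, koszulD_apply, map_sum, map_zsmul, map_smul]

theorem kmap_wedge (g : M →ₗ[MvPolynomial V K] N) (v : V) (f : Finset V → M) :
    kmap g (wedge K M v f) = wedge K N v (kmap g f) := by
  funext B
  by_cases hv : v ∈ B
  · simp only [kmap_apply, wedge_apply_mem _ v _ B hv, map_zsmul]
  · simp only [kmap_apply, wedge_apply_notMem _ v _ B hv, map_zero]

end naturality

end Pool.Agent.BEI
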