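import Pool.Agent.BEI.Chains

/-!
# Weights, leading forms, and the lifting theorem
-/

namespace Pool.Agent.BEI

open MvPolynomial Finset

set_option linter.unusedSectionVars false

variable {K : Type*} [Field K] {n : ℕ}

/-- the weight of the variables: `2^(n-i)` for `x_i` and `0` for `y_i` -/
def wt : Vars n → ℕ := fun v => Sum.elim (fun i : Fin n => 2 ^ (n - i.val)) (fun _ => 0) (ofLex v)

@[simp] theorem wt_xv (i : Fin n) : wt (xv i) = 2 ^ (n - i.val) := rfl
@[simp] theorem wt_yv (i : Fin n) : wt (yv i) = 0 := rfl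

/-- the weight of an exponent vector -/
noncomputable def W : (Vars n →₀ ℕ) →+ ℕ := Finsupp.weight wt

theorem W_single (v : Vars n) : W (Finsupp.single v 1) = wt v := by
  unfold W
  rw [Finsupp.weight_single, one_smul]

variable (K n) in
/-- chains with weight less than `ω` -/
noncomputable def F (ω : ℕ) : Submodule K (Finset (Vars n) → MvPolynomial (Vars n) K) :=
  Sup K {μ | W μ < ω}

theorem F_mono {a b : ℕ} (h : a ≤ b) {f : Finset (Vars n) → MvPolynomial (Vars n) K}
    (hf : f ∈ F K n a) : f ∈ F K n b :=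
  Sup_mono (fun _ hμ => lt_of_lt_of_le hμ h) hf

theorem wedge_mem_F {ω ω' : ℕ} {v : Vars n} (h : ω + wt v ≤ ω')
    {f : Finset (Vars n) → MvPolynomial (Vars n) K}
    (hf : f ∈ F K n ω) : wedge K (MvPolynomial (Vars n) K) v f ∈ F K n ω' := by
  refine wedge_mem_Sup ?_ hf
  intro μ hμ
  change W μ < ω at hμ
  change W (μ + Finsupp.single v 1) < ω'
  rw [map_add, W_single]
  omega

theorem smul_mem_F {ω ω' : ℕ} {v : Vars n} (h : ω + wt v ≤ ω')
    {f : Finset (Vars n) → MvPolynomial (Vars n) K}
    (hf : f ∈ F K n ω) : (X v : MvPolynomial (Vars n) K) • f ∈ F K n ω' := by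
  refine X_smul_mem_Sup ?_ hf
  intro μ hμ
  change W μ < ω at hμ
  change W (μ + Finsupp.single v 1) < ω'
  rw [map_add, W_single]
  omega

theorem F_zero {f : Finset (Vars n) → MvPolynomial (Vars n) K} (hf : f ∈ F K n 0) : f = 0 := by
  funext A
  ext m
  by_contra h
  have := hf A m h
  exact absurd this (Nat.not_lt_zero _)

/-- total weight of the `x`'s of a list -/
def wls (Q : List (Fin n)) : ℕ := (Q.map fun q => 2 ^ (n - q.val)).sum

@[simp] theorem wls_nil : wls ([] : List (Fin n)) = 0 := rfl
@[simp] theorem wls_cons (q : Fin n) (Q : List (Fin n)) :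
    wls (q :: Q) = 2 ^ (n - q.val) + wls Q := rfl

theorem wls_lt (q : Fin n) (Q : List (Fin n)) (h : (q :: Q).Pairwise (· < ·)) :
    wls Q < 2 ^ (n - q.val) := by
  induction Q generalizing q with
  | nil => simp
  | cons r Q ih =>
    rw [List.pairwise_cons] at h
    have h1 := ih r h.2
    have hqr : q < r := h.1 r (by simp)
    rw [wls_cons]
    have h2 : n - q.val = (n - q.val - 1) + 1 := by have := q.isLt; omega
    have h3 : n - r.val ≤ n - q.val - 1 := by
      have : q.val < r.val := hqr
      omega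
    have h4 : 2 ^ (n - r.val) ≤ 2 ^ (n - q.val - 1) := Nat.pow_le_pow_right (by norm_num) h3
    rw [h2, pow_succ]
    omega

theorem ls_weight (Q : List (Fin n)) : W (ls (Q.map xv)) = wls Q := by
  induction Q with
  | nil => simp
  | cons q Q ih => rw [List.map_cons, ls_cons, map_add, W_single, wt_xv, ih, wls_cons]

theorem ls_weight_y (Q : List (Fin n)) : W (ls (Q.map (yv (n := n)))) = 0 := by
  induction Q with
  | nil => simp
  | cons q Q ih => rw [List.map_cons, ls_cons, map_add, W_single, wt_yv, ih]


end Pool.Agent.BEI
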